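import Pool.Agent.Y557.OE.LvU
import Pool.Agent.Y557.OE.LvV

/-!
One exceptional set for the points of all products of curves above the tuples of elements of a
number field (helper557).
-/

set_option autoImplicit false

namespace Pool.Agent.Y557.OE

open NumberField IsDedekindDomain Height Finset Pool.Agent.TH876.Loc Polynomial
open Pool.Agent.H691R3 hiding mt av mt_pos wt
open Pool.Agent.Y728.AK Pool.Agent.Y728.MN
open Pool.Agent.TH876.KR (form counting)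

/-- the empty set of primes -/
abbrev noS (K : Type) [Field K] : Set (HeightOneSpectrum (𝓞 K)) :=
  ((∅ : Finset (HeightOneSpectrum (𝓞 K))) : Set (HeightOneSpectrum (𝓞 K)))

/-- **the exceptional set** -/
theorem one_exc (K : Type) [Field K] [NumberField K] {m q : ℕ} (hm : 0 < m) (hq : 3 ≤ q)
    (a : Fin q → K) (ha : Function.Injective a) {κ : ℝ} (hκ : 0 < κ) :
    ∃ E : Set (Fin m → K),
      (∃ ν C : ℝ, 0 < ν ∧ 0 < C ∧ ∀ X : ℝ, 1 ≤ X →
        ((E ∩ TupG (noS K) (fun j => pK (a j)) ∅ X).ncard : ℝ) ≤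
          C * X ^ (2 * m / (q : ℝ) - ν)) ∧
      ∀ x : Fin m → K, x ∉ E → (∀ i j, x i ≠ a j) → Function.Injective x ∧
        ((q : ℝ) + m - 1 - κ) * ∑ i, logHeight₁ (x i) ≤ nn (noS K) (fun j => pK (a j)) x := by
  classical
  have hS : (noS K).Finite := Finset.finite_toSet _
  have ha' : ∀ i j, i ≠ j → form ((fun j => pK (a j)) i) ((fun j => pK (a j)) j) ≠ 0 :=
    fun i j hij => formK_ne' fun h => hij (ha h)
  refine ⟨{x | ¬ (Function.Injective x ∧ ((q : ℝ) + m - 1 - κ) * ∑ i, logHeight₁ (x i) ≤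
    nn (noS K) (fun j => pK (a j)) x)}, ?_, fun x hx _ => ?_⟩
  · refine exc_all hq hm hS ha' ∅ hκ 0 _ ?_
    rintro X x ⟨h1, h2⟩
    refine ⟨h2.1, ?_⟩
    by_cases hinj : Function.Injective x
    · right
      refine ⟨⟨h2.1, hinj⟩, ?_⟩
      have h3 : ¬ (Function.Injective x ∧ ((q : ℝ) + m - 1 - κ) * ∑ i, logHeight₁ (x i) ≤
        nn (noS K) (fun j => pK (a j)) x) := h1
      have h4 : ¬ ((q : ℝ) + m - 1 - κ) * ∑ i, logHeight₁ (x i) ≤
        nn (noS K) (fun j => pK (a j)) x := fun h => h3 ⟨hinj, h⟩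
      rw [not_le] at h4
      rw [add_zero]
      exact h4
    · left
      left
      unfold Function.Injective at hinj
      push Not at hinj
      obtain ⟨i, k, h3, h4⟩ := hinj
      exact ⟨i, k, h4, h3⟩
  · by_contra h
    exact hx h

variable {K k : Type} [Field K] [NumberField K] [Field k] [NumberField k] [Algebra K k] {m q : ℕ}
  {A : Fin m → Type} [∀ i, CommRing (A i)] [∀ i, Algebra k (A i)] [∀ i, Algebra k[X] (A i)]

/-- **the truncated counting function outside the exceptional set** -/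
theorem coreU [∀ i, IsDedekindDomain (A i)] [∀ i, IsScalarTower k k[X] (A i)]
    [∀ i, Module.Finite k[X] (A i)] [∀ i, FaithfulSMul k[X] (A i)] (hq : 3 ≤ q) (a : Fin q → K)
    (u : Fin m → Fin q → ℕ) (y : ∀ i j, Fin (u i j) → A i) (E : ∀ i, Fin q → Ideal (A i))
    (hE : ∀ i j, E i j ≠ ⊥)
    (hyE : ∀ i j l, ∀ e ∈ E i j,
      y i j l * e ∈ (Ideal.span {crd k (A i) -
        algebraMap k (A i) (algebraMap K k (a j))}).radical)
    {G : Finset (Fin m × Fin m)} (hG : ∀ p ∈ G, p.1 < p.2) (S : Finset (HeightOneSpectrum (𝓞 k)))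
    {κ : ℝ} (hκ : 0 < κ) :
    ∃ c : ℝ, ∀ x : Fin m → K, (∀ i j, x i ≠ a j) → Function.Injective x →
      ((q : ℝ) + m - 1 - κ / 2) * ∑ i, logHeight₁ (x i) ≤ nn (noS K) (fun j => pK (a j)) x →
      ∀ (L : Type) [Field L] [NumberField L] [Algebra K L] [Algebra k L] [IsScalarTower K k L]
        (φ : ∀ i, A i →ₐ[k] L), (∀ i, φ i (crd k (A i)) = algebraMap K L (x i)) →
        (Module.finrank K L : ℝ) * (∑ i, ((q : ℝ) - (∑ j, (Module.finrank k (A i ⧸ E i j) : ℝ)) /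
          Module.finrank k[X] (A i) - κ) * logHeight₁ (x i) +
            ∑ p ∈ G, (logHeight₁ (x p.1) + logHeight₁ (x p.2))) ≤
          Real.log |(discr L : ℝ)| + trnU S a u y G φ + (Module.finrank K L : ℝ) * c := by
  classical
  obtain ⟨C, hlev⟩ := levU (by omega : 1 ≤ q) a u y E hE hyE hG S (ε := κ / 2) (by positivity)
  refine ⟨cst (fun j => pK (a j)) m + C - Real.log |(discr K : ℝ)|, ?_⟩
  intro x hxa hinj hnn L _ _ _ _ _ φ hφ
  have hf : ∀ i j, form (pK (a j)) (pt (x i)) ≠ 0 := fun i j => form_pt_ne (hxa i j).symm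
  have h1 := sub_lower (S := noS K) (a := fun j => pK (a j)) (stN_pt a) hf hinj
    (Finset.univ : Finset (Fin m × Fin q)) hG (κ := κ / 2) (C₀ := cst (fun j => pK (a j)) m) (by
      rw [sub_self, add_zero]
      exact hnn)
  have h2 := hlev x hf hinj L φ hφ
  rw [sum_fst (fun i => logHeight₁ (x i))] at h1
  have hfd : FiniteDimensional K L := Module.Finite.of_restrictScalars_finite ℚ K L
  obtain ⟨mL, hmL⟩ : ∃ mL : ℝ, mL = (Module.finrank K L : ℝ) := ⟨_, rfl⟩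
  have hm0 : 0 < mL := by rw [hmL]; exact_mod_cast Module.finrank_pos
  obtain ⟨lK, hlK⟩ : ∃ lK : ℝ, lK = Real.log |(discr K : ℝ)| := ⟨_, rfl⟩
  obtain ⟨lL, hlL⟩ : ∃ lL : ℝ, lL = Real.log |(discr L : ℝ)| := ⟨_, rfl⟩
  obtain ⟨N0, hN0⟩ : ∃ N0 : ℝ, N0 = trnU S a u y G φ := ⟨_, rfl⟩
  obtain ⟨W, hW⟩ : ∃ W : ℝ, W = wt (bdT_fin (S := noS K) (a := fun j => pK (a j)) hf hinj
    Finset.univ hG).toFinset := ⟨_, rfl⟩
  obtain ⟨Z, hZ⟩ : ∃ Z : ℝ, Z = ∑ p ∈ G, (logHeight₁ (x p.1) + logHeight₁ (x p.2)) := ⟨_, rfl⟩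
  obtain ⟨H, hH⟩ : ∃ H : ℝ, H = ∑ i, logHeight₁ (x i) := ⟨_, rfl⟩
  obtain ⟨N, hN⟩ : ∃ N : ℝ, N = ∑ i, (∑ j, (Module.finrank k (A i ⧸ E i j) : ℝ)) /
    Module.finrank k[X] (A i) * logHeight₁ (x i) := ⟨_, rfl⟩
  obtain ⟨c0, hc0⟩ : ∃ c0 : ℝ, c0 = cst (fun j => pK (a j)) m := ⟨_, rfl⟩
  have e1 : ∑ i, ((∑ j, (Module.finrank k (A i ⧸ E i j) : ℝ)) / Module.finrank k[X] (A i) +
      κ / 2) * logHeight₁ (x i) = N + κ / 2 * H := by
    rw [hN, hH, Finset.mul_sum, ← Finset.sum_add_distrib]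
    exact Finset.sum_congr rfl fun i _ => by ring
  have e2 : ∑ i, ((q : ℝ) - (∑ j, (Module.finrank k (A i ⧸ E i j) : ℝ)) /
      Module.finrank k[X] (A i) - κ) * logHeight₁ (x i) = q * H - N - κ * H := by
    rw [hN, hH, Finset.mul_sum, Finset.mul_sum, ← Finset.sum_sub_distrib, ← Finset.sum_sub_distrib]
    exact Finset.sum_congr rfl fun i _ => by ring
  rw [e1, ← hW, ← hmL, ← hlK, ← hlL, ← hN0] at h2
  rw [← hW, ← hZ, ← hH, ← hc0] at h1
  rw [e2, ← hZ, ← hmL, ← hlL, ← hN0, ← hc0, ← hlK]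
  have h4 : mL * (q * H + Z - κ / 2 * H) ≤ mL * (W + c0) := mul_le_mul_of_nonneg_left h1 hm0.le
  nlinarith

/-- **the proximity functions outside the exceptional set** -/
theorem coreV [∀ i, IsDedekindDomain (A i)] [∀ i, IsScalarTower k k[X] (A i)]
    [∀ i, Module.Finite k[X] (A i)] [∀ i, FaithfulSMul k[X] (A i)] (hq : 3 ≤ q) (a : Fin q → K)
    (u : Fin m → Fin q → ℕ) (y : ∀ i j, Fin (u i j + 1) → A i)
    (hy0 : ∀ i j, y i j 0 = crd k (A i) - algebraMap k (A i) (algebraMap K k (a j)))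
    (hyr : ∀ i j l, y i j l ∈
      (Ideal.span {crd k (A i) - algebraMap k (A i) (algebraMap K k (a j))}).radical)
    {G : Finset (Fin m × Fin m)} (hG : ∀ p ∈ G, p.1 < p.2) {κ : ℝ} (hκ : 0 < κ) :
    ∃ c : ℝ, ∀ x : Fin m → K, (∀ i j, x i ≠ a j) → Function.Injective x →
      ((q : ℝ) + m - 1 - κ / 2) * ∑ i, logHeight₁ (x i) ≤ nn (noS K) (fun j => pK (a j)) x →
      ∀ (L : Type) [Field L] [NumberField L] [Algebra K L] [Algebra k L] [IsScalarTower K k L]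
        (φ : ∀ i, A i →ₐ[k] L), (∀ i, φ i (crd k (A i)) = algebraMap K L (x i)) →
        (∀ i j, {v : HeightOneSpectrum (𝓞 L) |
          Pool.Agent.W223.AC.lamF (y i j) (φ i : A i →+* L) v ≠ 0}.Finite) ∧
        ∀ S : Finset ℕ, (∀ p ∈ S, p.Prime) →
        (Module.finrank K L : ℝ) * (∑ i, ((q : ℝ) - (∑ j, (Module.finrank k
            (A i ⧸ Ideal.span (Set.range (y i j))) : ℝ)) / Module.finrank k[X] (A i) - κ) *
              logHeight₁ (x i)) +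
          (∑ i, ∑ j, (∑ w : InfinitePlace L, (w.mult : ℝ) *
            Pool.Agent.W223.AC.lamI (y i j) (φ i : A i →+* L) w +
              Pool.Agent.W223.AC.mS S (y i j) (φ i : A i →+* L)) +
            ∑ p ∈ G, prG S (φ p.1 (crd k (A p.1))) (φ p.2 (crd k (A p.2)))) ≤
          Real.log |(discr L : ℝ)| + (Module.finrank ℚ L : ℝ) * ∑ p ∈ S, Real.log p +
            (Module.finrank K L : ℝ) * c := by
  classical
  obtain ⟨C, hlev⟩ := levV (by omega : 1 ≤ q) a u y hy0 hyr hG (ε := κ / 2) (by positivity)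
  refine ⟨cst (fun j => pK (a j)) m + C - Real.log |(discr K : ℝ)|, ?_⟩
  intro x hxa hinj hnn L _ _ _ _ _ φ hφ
  have hf : ∀ i j, form (pK (a j)) (pt (x i)) ≠ 0 := fun i j => form_pt_ne (hxa i j).symm
  have h1 := sub_lower (S := noS K) (a := fun j => pK (a j)) (stN_pt a) hf hinj
    (Finset.univ : Finset (Fin m × Fin q)) hG (κ := κ / 2) (C₀ := cst (fun j => pK (a j)) m) (by
      rw [sub_self, add_zero]
      exact hnn)
  obtain ⟨hfin, h2⟩ := hlev x hf hinj L φ hφ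
  refine ⟨hfin, fun S hS => ?_⟩
  have h2 := h2 S hS
  rw [sum_fst (fun i => logHeight₁ (x i))] at h1
  have hW' : ∑ p ∈ G, prG S (φ p.1 (crd k (A p.1))) (φ p.2 (crd k (A p.2))) =
      ∑ p ∈ G, prG S (algebraMap K L (x p.1)) (algebraMap K L (x p.2)) :=
    Finset.sum_congr rfl fun p _ => by rw [hφ, hφ]
  rw [hW']
  have hfd : FiniteDimensional K L := Module.Finite.of_restrictScalars_finite ℚ K L
  obtain ⟨mL, hmL⟩ : ∃ mL : ℝ, mL = (Module.finrank K L : ℝ) := ⟨_, rfl⟩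
  have hm0 : 0 < mL := by rw [hmL]; exact_mod_cast Module.finrank_pos
  obtain ⟨d, hd⟩ : ∃ d : ℝ, d = (Module.finrank ℚ K : ℝ) := ⟨_, rfl⟩
  have htow : (Module.finrank ℚ L : ℝ) = d * mL := by
    rw [hd, hmL]
    exact_mod_cast (Module.finrank_mul_finrank ℚ K L).symm
  obtain ⟨lK, hlK⟩ : ∃ lK : ℝ, lK = Real.log |(discr K : ℝ)| := ⟨_, rfl⟩
  obtain ⟨lL, hlL⟩ : ∃ lL : ℝ, lL = Real.log |(discr L : ℝ)| := ⟨_, rfl⟩
  obtain ⟨W0, hW0⟩ : ∃ W0 : ℝ, W0 = ∑ i, ∑ j, (∑ w : InfinitePlace L, (w.mult : ℝ) *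
      Pool.Agent.W223.AC.lamI (y i j) (φ i : A i →+* L) w +
        Pool.Agent.W223.AC.mS S (y i j) (φ i : A i →+* L)) +
      ∑ p ∈ G, prG S (algebraMap K L (x p.1)) (algebraMap K L (x p.2)) := ⟨_, rfl⟩
  obtain ⟨Rs, hRs⟩ : ∃ Rs : ℝ, Rs = ∑ p ∈ S, Real.log p := ⟨_, rfl⟩
  obtain ⟨W, hW⟩ : ∃ W : ℝ, W = wt (bdT_fin (S := noS K) (a := fun j => pK (a j)) hf hinj
    Finset.univ hG).toFinset := ⟨_, rfl⟩
  obtain ⟨Z, hZ⟩ : ∃ Z : ℝ, Z = ∑ p ∈ G, (logHeight₁ (x p.1) + logHeight₁ (x p.2)) := ⟨_, rfl⟩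
  obtain ⟨H, hH⟩ : ∃ H : ℝ, H = ∑ i, logHeight₁ (x i) := ⟨_, rfl⟩
  obtain ⟨N, hN⟩ : ∃ N : ℝ, N = ∑ i, (∑ j, (Module.finrank k
    (A i ⧸ Ideal.span (Set.range (y i j))) : ℝ)) / Module.finrank k[X] (A i) *
      logHeight₁ (x i) := ⟨_, rfl⟩
  obtain ⟨c0, hc0⟩ : ∃ c0 : ℝ, c0 = cst (fun j => pK (a j)) m := ⟨_, rfl⟩
  have e1 : ∑ i, ((∑ j, (Module.finrank k (A i ⧸ Ideal.span (Set.range (y i j))) : ℝ)) /
      Module.finrank k[X] (A i) + κ / 2) * logHeight₁ (x i) = N + κ / 2 * H := by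
    rw [hN, hH, Finset.mul_sum, ← Finset.sum_add_distrib]
    exact Finset.sum_congr rfl fun i _ => by ring
  have e2 : ∑ i, ((q : ℝ) - (∑ j, (Module.finrank k (A i ⧸ Ideal.span (Set.range (y i j))) : ℝ)) /
      Module.finrank k[X] (A i) - κ) * logHeight₁ (x i) = q * H - N - κ * H := by
    rw [hN, hH, Finset.mul_sum, Finset.mul_sum, ← Finset.sum_sub_distrib, ← Finset.sum_sub_distrib]
    exact Finset.sum_congr rfl fun i _ => by ring
  rw [e1, ← hW, ← hW0, ← hZ, ← hmL, ← hlK, ← hlL, ← hRs, ← hd] at h2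
  rw [← hW, ← hZ, ← hH, ← hc0] at h1
  rw [e2, ← hW0, ← hmL, ← hlL, ← hRs, ← hc0, ← hlK, htow]
  have h4 : mL * (q * H + Z - κ / 2 * H) ≤ mL * (W + c0) := mul_le_mul_of_nonneg_left h1 hm0.le
  nlinarith

end Pool.Agent.Y557.OE
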