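import Pool.Agent.Y557.OE.Key
import Pool.Agent.Y728.MN.LvQ

/-!
The key inequality and the proximity functions of the points of products of curves over a number
field `k` above the tuples of elements of another number field `K` (helper557, adapting files of
helper728).
-/

set_option autoImplicit false

namespace Pool.Agent.Y557.OE

open NumberField IsDedekindDomain Height Finset Pool.Agent.TH876.Loc Polynomial
open Pool.Agent.H691R3 hiding mt av mt_pos wt
open Pool.Agent.Y728.AK Pool.Agent.Y728.MN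
open Pool.Agent.H951R3.V (ell ell_pos)
open Pool.Agent.TH876.KR (form counting localHeight localHeight_pos_iff m2)
open Pool.Agent.Y729.RV (cnt)

/-- **counting and proximity functions on one curve** -/
theorem proxAll3 (k₁ K k A : Type) [Field k₁] [NumberField k₁] [Field K] [NumberField K]
    [Field k] [NumberField k] [Algebra k₁ K] [Algebra k₁ k] [CommRing A] [IsDedekindDomain A] [Algebra k A] [Algebra k[X] A]
    [IsScalarTower k k[X] A] [Module.Finite k[X] A] [FaithfulSMul k[X] A] {q : ℕ} (hq : 1 ≤ q)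
    (a : Fin q → k₁) (s : Fin q → ℕ) (y : ∀ j, Fin (s j + 1) → A)
    (hy0 : ∀ j, y j 0 = algebraMap k[X] A X - algebraMap k A (algebraMap k₁ k (a j)))
    (hyr : ∀ j i, y j i ∈
      (Ideal.span {algebraMap k[X] A X - algebraMap k A (algebraMap k₁ k (a j))}).radical)
    (ε : ℝ) (hε : 0 < ε) :
    ∃ (M : ℕ) (C : ℝ), M ≠ 0 ∧ 0 ≤ C ∧
      ∀ (L : Type) [Field L] [NumberField L] [Algebra k₁ L] [Algebra K L] [Algebra k L]
        [IsScalarTower k₁ K L] [IsScalarTower k₁ k L]
        (φ : A →ₐ[k] L) (x : K), φ (algebraMap k[X] A X) = algebraMap K L x →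
        (∀ j, x ≠ algebraMap k₁ K (a j)) →
        (∀ j, {v : HeightOneSpectrum (𝓞 L) | Pool.Agent.W223.AC.lamF (y j) (φ : A →+* L) v ≠ 0}.Finite) ∧
        ∀ S : Finset ℕ, (∀ p ∈ S, p.Prime) →
        cnt (M.primeFactors ∪ S) a (algebraMap K L x) + prx S y (φ : A →+* L) ≤
          ((∑ j, (Module.finrank k (A ⧸ Ideal.span (Set.range (y j))) : ℝ)) /
            Module.finrank k[X] A + ε) * ((Module.finrank K L : ℝ) * logHeight₁ x) +
              Module.finrank ℚ L * C := by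
  classical
  obtain ⟨M, C, G, hM, hC, hG, hkey⟩ := Pool.Agent.Y728.AK.PX.proxK2 k A hq
    (fun j => algebraMap k₁ k (a j)) s y hy0 hyr ε hε
  obtain ⟨b, hb⟩ : ∃ b : Fin q → K, b = fun j => algebraMap k₁ K (a j) := ⟨_, rfl⟩
  have hbj : ∀ j, algebraMap k₁ K (a j) = b j := fun j => by rw [hb]
  have hR : {z : K | aeval z G = 0}.Finite := by
    refine (Polynomial.rootSet_finite G K).subset fun z hz => ?_
    exact (Polynomial.mem_rootSet_of_ne hG).mpr hz
  obtain ⟨c, hc⟩ : ∃ c : K → ℝ, c = fun x =>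
    ∑ j, (logHeight₁ x + logHeight₁ (b j) + Real.log 2) + ∑ j, logHeight₁ (x - b j) := ⟨_, rfl⟩
  have hlog2 := Real.log_nonneg (one_le_two : (1 : ℝ) ≤ 2)
  have hc0 : ∀ x, 0 ≤ c x := fun x => by
    rw [hc]
    refine add_nonneg (Finset.sum_nonneg fun j _ => ?_)
      (Finset.sum_nonneg fun j _ => zero_le_logHeight₁ _)
    have h1 := zero_le_logHeight₁ x
    have h2 := zero_le_logHeight₁ (b j)
    linarith
  obtain ⟨C', hC'⟩ : ∃ C' : ℝ, C' = C + ∑ x ∈ hR.toFinset, c x := ⟨_, rfl⟩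
  have hCC : C ≤ C' := by
    rw [hC']
    have := Finset.sum_nonneg fun x (_ : x ∈ hR.toFinset) => hc0 x
    linarith
  refine ⟨M, C', hM, hC.trans hCC, ?_⟩
  intro L _ _ _ _ _ _ _ φ x hφ hx0
  have hx : ∀ j, x ≠ b j := fun j => by
    rw [← hbj]
    exact hx0 j
  have hL0 : (0 : ℝ) ≤ (Module.finrank ℚ L : ℝ) := Nat.cast_nonneg _
  have hbL : ∀ j, algebraMap k L (algebraMap k₁ k (a j)) = algebraMap K L (b j) := by
    intro j
    rw [← hbj, ← IsScalarTower.algebraMap_apply, ← IsScalarTower.algebraMap_apply]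
  have hy : ∀ j, φ (y j 0) = algebraMap K L (x - b j) := by
    intro j
    rw [hy0, map_sub, hφ, map_sub, AlgHom.commutes, hbL]
  have hyne : ∀ j, (φ : A →+* L) (y j 0) ≠ 0 := by
    intro j
    show φ (y j 0) ≠ 0
    rw [hy]
    intro h3
    exact hx j (sub_eq_zero.1 ((map_eq_zero _).1 h3))
  refine ⟨fun j => (prox_le ∅ (y j) (φ : A →+* L) (hyne j)).1, fun S hS => ?_⟩
  have hne : ∀ j, algebraMap K L x ≠ algebraMap k L (algebraMap k₁ k (a j)) := by
    intro j h
    rw [hbL] at h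
    exact hx j ((algebraMap K L).injective h)
  by_cases hGx : aeval x G ≠ 0
  · have h1 := (hkey L φ (by
      rw [hφ, aeval_algebraMap_apply]
      intro h
      exact hGx ((map_eq_zero _).1 h)) (by
      intro j
      rw [hφ]
      exact hne j)).2 S hS
    rw [hφ, cnt_tower] at h1
    have e1 : Real.log (mulHeight₁ (algebraMap K L x)) =
        (Module.finrank K L : ℝ) * logHeight₁ x := ht_ext x
    rw [e1] at h1
    unfold prx
    refine h1.trans ?_
    have h2 := mul_le_mul_of_nonneg_left hCC hL0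
    linarith
  · rw [not_not] at hGx
    have hxR : x ∈ hR.toFinset := (Set.Finite.mem_toFinset hR).2 hGx
    have h2 : c x ≤ C' := by
      rw [hC']
      have h3 := Finset.single_le_sum (fun z (_ : z ∈ hR.toFinset) => hc0 z) hxR
      linarith
    have h3 := cnt_le_ht (L := L) (M.primeFactors ∪ S) b hx
    have ecnt : cnt (M.primeFactors ∪ S) b (algebraMap K L x) =
        cnt (M.primeFactors ∪ S) a (algebraMap K L x) := by
      rw [hb]
      exact cnt_tower _ a _
    rw [ecnt] at h3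
    have h4 : prx S y (φ : A →+* L) ≤
        (Module.finrank ℚ L : ℝ) * ∑ j, logHeight₁ (x - b j) := by
      unfold prx
      rw [Finset.mul_sum]
      refine Finset.sum_le_sum fun j _ => ?_
      refine (prox_le S (y j) (φ : A →+* L) (hyne j)).2.trans ?_
      have h5 : logHeight₁ ((φ : A →+* L) (y j 0)) =
          (Module.finrank K L : ℝ) * logHeight₁ (x - b j) := by
        show logHeight₁ (φ (y j 0)) = _
        rw [hy, ht_ext]
      rw [h5]
      exact mul_le_mul_of_nonneg_right fin_le (zero_le_logHeight₁ _)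
    have h5 : 0 ≤ ((∑ j, (Module.finrank k (A ⧸ Ideal.span (Set.range (y j))) : ℝ)) /
        Module.finrank k[X] A + ε) * ((Module.finrank K L : ℝ) * logHeight₁ x) :=
      mul_nonneg (by positivity) (mul_nonneg (Nat.cast_nonneg _) (zero_le_logHeight₁ x))
    have h6 := mul_le_mul_of_nonneg_left h2 hL0
    have h7 : (Module.finrank ℚ L : ℝ) * c x =
        (Module.finrank ℚ L : ℝ) * ∑ j, (logHeight₁ x + logHeight₁ (b j) + Real.log 2) +
          (Module.finrank ℚ L : ℝ) * ∑ j, logHeight₁ (x - b j) := by rw [hc]; ring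
    linarith

variable {k₁ K k : Type} [Field k₁] [NumberField k₁] [Field K] [NumberField K] [Field k]
  [NumberField k] [Algebra k₁ K] [Algebra k₁ k] {m q : ℕ} {A : Fin m → Type}
  [∀ i, CommRing (A i)] [∀ i, Algebra k (A i)] [∀ i, Algebra k[X] (A i)]

/-- **the proximity function of a point over `L`**, curves over `k`, points above `K ^ m` -/
theorem levW [∀ i, IsDedekindDomain (A i)] [∀ i, IsScalarTower k k[X] (A i)]
    [∀ i, Module.Finite k[X] (A i)] [∀ i, FaithfulSMul k[X] (A i)] (hq : 1 ≤ q) (a : Fin q → k₁)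
    (u : Fin m → Fin q → ℕ) (y : ∀ i j, Fin (u i j + 1) → A i)
    (hy0 : ∀ i j, y i j 0 = crd k (A i) - algebraMap k (A i) (algebraMap k₁ k (a j)))
    (hyr : ∀ i j l, y i j l ∈
      (Ideal.span {crd k (A i) - algebraMap k (A i) (algebraMap k₁ k (a j))}).radical)
    {G : Finset (Fin m × Fin m)} (hG : ∀ p ∈ G, p.1 < p.2) {ε : ℝ} (hε : 0 < ε) :
    ∃ C : ℝ,
      ∀ (x : Fin m → K) (hf : ∀ i j, form (pK (algebraMap k₁ K (a j))) (pt (x i)) ≠ 0)
        (hx : Function.Injective x),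
        ∀ (L : Type) [Field L] [NumberField L] [Algebra k₁ L] [Algebra K L] [Algebra k L]
          [IsScalarTower k₁ K L] [IsScalarTower k₁ k L]
          (φ : ∀ i, A i →ₐ[k] L),
          (∀ i, φ i (crd k (A i)) = algebraMap K L (x i)) →
          (∀ i j, {v : HeightOneSpectrum (𝓞 L) |
            Pool.Agent.W223.AC.lamF (y i j) (φ i : A i →+* L) v ≠ 0}.Finite) ∧
          ∀ S : Finset ℕ, (∀ p ∈ S, p.Prime) →
          (Module.finrank K L : ℝ) *
            (wt (bdT_fin (S := ((∅ : Finset (HeightOneSpectrum (𝓞 K))) :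
              Set (HeightOneSpectrum (𝓞 K)))) (a := fun j => pK (algebraMap k₁ K (a j)))
              hf hx univ hG).toFinset + Real.log |(discr K : ℝ)| - C) +
            (∑ i, ∑ j, (∑ w : InfinitePlace L, (w.mult : ℝ) *
              Pool.Agent.W223.AC.lamI (y i j) (φ i : A i →+* L) w +
                Pool.Agent.W223.AC.mS S (y i j) (φ i : A i →+* L)) +
              ∑ p ∈ G, prG S (algebraMap K L (x p.1)) (algebraMap K L (x p.2))) ≤
            Real.log |(discr L : ℝ)| + (Module.finrank K L : ℝ) *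
              (∑ i, ((∑ j, (Module.finrank k (A i ⧸ Ideal.span (Set.range (y i j))) : ℝ)) /
                Module.finrank k[X] (A i) + ε) * logHeight₁ (x i) +
                ∑ p ∈ G, (logHeight₁ (x p.1) + logHeight₁ (x p.2)) +
                Module.finrank ℚ K * ∑ p ∈ S, Real.log p) := by
  classical
  have hkey := fun i => proxAll3 k₁ K k (A i) hq a (u i) (y i) (hy0 i) (hyr i) ε hε
  choose M Ck hM hCk hkey using hkey
  obtain ⟨T, hT⟩ : ∃ T : Finset ℕ,
    T = (univ : Finset (Fin m)).biUnion fun i => (M i).primeFactors := ⟨_, rfl⟩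
  have hTM : ∀ i, (M i).primeFactors ⊆ T := by
    intro i
    rw [hT]
    exact Finset.subset_biUnion_of_mem (fun i => (M i).primeFactors) (Finset.mem_univ i)
  have hTp : ∀ p ∈ T, p.Prime := by
    intro p hp
    rw [hT] at hp
    obtain ⟨i, -, hi⟩ := Finset.mem_biUnion.1 hp
    exact Nat.prime_of_mem_primeFactors hi
  obtain ⟨b, hb⟩ : ∃ b : Fin q → K, b = fun j => algebraMap k₁ K (a j) := ⟨_, rfl⟩
  have hbj : ∀ j, algebraMap k₁ K (a j) = b j := fun j => by rw [hb]
  obtain ⟨S', hSS', hS'1, hS'2⟩ := exists_big b ∅ T hTp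
  obtain ⟨d, hd⟩ : ∃ d : ℝ, d = (Module.finrank ℚ K : ℝ) := ⟨_, rfl⟩
  refine ⟨wt S' + d * (∑ i, Ck i + G.card * Real.log 2), ?_⟩
  intro x hf hx L _ _ _ _ _ _ _ φ hφ
  obtain ⟨ξ, hξ⟩ : ∃ ξ : Fin m → L, ξ = fun i => algebraMap K L (x i) := ⟨_, rfl⟩
  have hφξ : ∀ i, φ i (crd k (A i)) = ξ i := by intro i; rw [hφ i, hξ]
  have hxa : ∀ i j, x i ≠ b j := by
    intro i j h
    apply hf i j
    show form (pK (algebraMap k₁ K (a j))) ![x i, 1] = 0
    rw [formK, h, hbj, sub_self]
  have hne : ∀ i j, ξ i ≠ algebraMap k₁ L (a j) := by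
    intro i j h
    rw [hξ, IsScalarTower.algebraMap_apply k₁ K L] at h
    exact hxa i j (((algebraMap K L).injective h).trans (hbj j))
  have hinj : Function.Injective ξ := by
    rw [hξ]
    exact (algebraMap K L).injective.comp hx
  have hkey' := fun i => hkey i L (φ i) (x i) (hφ i) (fun j => by
    rw [hbj]
    exact hxa i j)
  refine ⟨fun i j => (hkey' i).1 j, fun S hS => ?_⟩
  -- the finite sets
  obtain ⟨Af, hAf⟩ : ∃ Af : Fin m → Finset (HeightOneSpectrum (𝓞 L)),
    Af = fun i => (Pool.Agent.Y729.RV.nr_fin (M i).primeFactors (hne i)).toFinset := ⟨_, rfl⟩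
  have hAm : ∀ i w, w ∈ Af i ↔ Pool.Agent.Y729.RV.Nr (M i).primeFactors a (ξ i) w := by
    intro i w
    rw [hAf, Set.Finite.mem_toFinset]
    rfl
  obtain ⟨AS, hAS⟩ : ∃ AS : Fin m → Finset (HeightOneSpectrum (𝓞 L)),
    AS = fun i => (Pool.Agent.Y729.RV.nr_fin ((M i).primeFactors ∪ S) (hne i)).toFinset :=
      ⟨_, rfl⟩
  have hASm : ∀ i w, w ∈ AS i ↔
      Pool.Agent.Y729.RV.Nr ((M i).primeFactors ∪ S) a (ξ i) w := by
    intro i w
    rw [hAS, Set.Finite.mem_toFinset]
    rfl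
  have hmfin : ∀ p : Fin m × Fin m, p.1 < p.2 →
      {w : HeightOneSpectrum (𝓞 L) | Meet w (pt (ξ p.1)) (pt (ξ p.2))}.Finite := by
    intro p hp
    refine (nr_fin (form_pt_ne fun h => hp.ne (hinj h))).subset fun w hw => ?_
    exact (meet_iff w _ _).1 hw
  obtain ⟨Mf, hMf⟩ : ∃ Mf : Fin m × Fin m → Finset (HeightOneSpectrum (𝓞 L)),
    Mf = fun p => if h : p.1 < p.2 then (hmfin p h).toFinset else ∅ := ⟨_, rfl⟩
  have hMm : ∀ p, p.1 < p.2 → ∀ w, w ∈ Mf p ↔ Meet w (pt (ξ p.1)) (pt (ξ p.2)) := by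
    intro p hp w
    rw [hMf]
    beta_reduce
    rw [dif_pos hp, Set.Finite.mem_toFinset]
    rfl
  -- the key inequality for every curve
  have hdiff : ∀ i, wt (AS i) + ∑ j, (∑ w : InfinitePlace L, (w.mult : ℝ) *
      Pool.Agent.W223.AC.lamI (y i j) (φ i : A i →+* L) w +
        Pool.Agent.W223.AC.mS S (y i j) (φ i : A i →+* L)) ≤
      ((∑ j, (Module.finrank k (A i ⧸ Ideal.span (Set.range (y i j))) : ℝ)) /
        Module.finrank k[X] (A i) + ε) * Real.log (mulHeight₁ (ξ i)) +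
        Module.finrank ℚ L * Ck i := by
    intro i
    have h1 := (hkey' i).2 S hS
    have e0 : algebraMap K L (x i) = ξ i := by rw [hξ]
    rw [e0] at h1
    have eH : (Module.finrank K L : ℝ) * logHeight₁ (x i) = Real.log (mulHeight₁ (ξ i)) := by
      rw [← e0]
      exact (ht_ext (x i)).symm
    rw [eH] at h1
    unfold prx at h1
    have e1 : Pool.Agent.Y729.RV.cnt ((M i).primeFactors ∪ S) a (ξ i) = wt (AS i) := by
      rw [Pool.Agent.Y729.RV.cnt_eq ((M i).primeFactors ∪ S) (hne i), hAS]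
      rfl
    rw [e1] at h1
    exact h1
  -- the diagonals
  have hdia : ∀ p ∈ G, wt (outS S (Mf p)) + prG S (ξ p.1) (ξ p.2) ≤
      logHeight₁ (ξ p.1) + logHeight₁ (ξ p.2) + Module.finrank ℚ L * Real.log 2 := by
    intro p hp
    exact prG_le2 S (fun h => (hG p hp).ne (hinj h)) (Mf p) (hMm p (hG p hp))
  obtain ⟨WA, hWA⟩ : ∃ WA : Finset (HeightOneSpectrum (𝓞 L)),
    WA = (univ : Finset (Fin m)).biUnion Af ∪ G.biUnion Mf := ⟨_, rfl⟩
  have hWS : wt (outS S WA) ≤ ∑ i, wt (AS i) + ∑ p ∈ G, wt (outS S (Mf p)) := by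
    have h1 : outS S WA ⊆ (univ : Finset (Fin m)).biUnion AS ∪
        G.biUnion fun p => outS S (Mf p) := by
      intro w hw
      rw [mem_outS, hWA, Finset.mem_union, Finset.mem_biUnion, Finset.mem_biUnion] at hw
      obtain ⟨h1, h2⟩ := hw
      rw [Finset.mem_union, Finset.mem_biUnion, Finset.mem_biUnion]
      rcases h1 with ⟨i, hi, h1⟩ | ⟨p, hp, h1⟩
      · left
        refine ⟨i, hi, ?_⟩
        rw [hAm] at h1
        rw [hASm]
        refine ⟨fun l hl hlw => ?_, h1.2⟩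
        rcases Finset.mem_union.1 hl with hl | hl
        · exact h1.1 l hl hlw
        · exact h2 ⟨l, hl, hlw⟩
      · right
        exact ⟨p, hp, (mem_outS S (Mf p) w).2 ⟨h1, h2⟩⟩
    exact (wt_mono h1).trans ((wt_union_le _ _).trans (add_le_add (wt_biUnion_le _ _)
      (wt_biUnion_le _ _)))
  have hWle := wt_outS S hS WA
  -- the base change
  obtain ⟨Bd, hBd⟩ : ∃ Bd : Finset (HeightOneSpectrum (𝓞 K)),
    Bd = (bdT_fin (S := ((∅ : Finset (HeightOneSpectrum (𝓞 K))) :
      Set (HeightOneSpectrum (𝓞 K)))) (a := fun j => pK (algebraMap k₁ K (a j))) hf hx univ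
        hG).toFinset := ⟨_, rfl⟩
  have hBdm : ∀ v, v ∈ Bd ↔ v ∈ bdT ((∅ : Finset (HeightOneSpectrum (𝓞 K))) :
      Set (HeightOneSpectrum (𝓞 K))) (fun j => pK (algebraMap k₁ K (a j))) univ G x := by
    intro v
    rw [hBd, Set.Finite.mem_toFinset]
  have hbase := Pool.Agent.Y729.RV.base_change (k := K) (L := L) (Bd.filter fun v => v ∉ S') WA (by
    intro v hv w hw
    rw [Finset.mem_filter, hBdm] at hv
    obtain ⟨⟨-, hv⟩, hvS'⟩ := hv
    rw [hWA, Finset.mem_union, Finset.mem_biUnion, Finset.mem_biUnion]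
    rcases hv with ⟨p, -, hv⟩ | ⟨p, hp, hv⟩
    · left
      refine ⟨p.1, Finset.mem_univ _, ?_⟩
      rw [hAm, hξ]
      beta_reduce
      rw [Pool.Agent.Y729.RV.nr_iff (M p.1).primeFactors a (x p.1) v w]
      rw [← meet_iff] at hv
      have hv' : v.valuation K (algebraMap k₁ K (a p.2) - x p.1) <
          max (v.valuation K (algebraMap k₁ K (a p.2))) 1 * max (v.valuation K (x p.1)) 1 :=
        (meet_pt v (algebraMap k₁ K (a p.2)) (x p.1)).1 hv
      rw [hbj, max_eq_right (hS'2 v hvS' p.2), one_mul, ← neg_sub, Valuation.map_neg] at hv'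
      have h3 : v.valuation K (x p.1) ≤ 1 := by
        by_contra hcon
        rw [not_le] at hcon
        have h4 : v.valuation K (x p.1 - b p.2) = v.valuation K (x p.1) :=
          Valuation.map_sub_eq_of_lt_left _ ((hS'2 v hvS' p.2).trans_lt hcon)
        rw [h4, max_eq_left hcon.le] at hv'
        exact lt_irrefl _ hv'
      rw [max_eq_right h3, ← hbj] at hv'
      exact ⟨fun l hl => hS'1 v hvS' l (hTM _ hl), h3, p.2, hv'⟩
    · right
      refine ⟨p, hp, ?_⟩
      rw [hMm p (hG p hp), hξ]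
      beta_reduce
      rw [← pt_map, ← pt_map, meet_over v w, meet_iff]
      exact hv)
  have hbase' : (Module.finrank K L : ℝ) * (Real.log |(discr K : ℝ)| +
      wt (Bd.filter fun v => v ∉ S')) ≤ Real.log |(discr L : ℝ)| + wt WA := hbase
  have hBdle : wt Bd ≤ wt (Bd.filter fun v => v ∉ S') + wt S' := by
    refine (wt_mono (fun v hv => ?_)).trans (wt_union_le _ _)
    rw [Finset.mem_union, Finset.mem_filter]
    by_cases h : v ∈ S'
    · exact Or.inr h
    · exact Or.inl ⟨hv, h⟩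
  -- put everything together
  have hfd : FiniteDimensional K L := Module.Finite.of_restrictScalars_finite ℚ K L
  obtain ⟨mL, hmL⟩ : ∃ mL : ℝ, mL = (Module.finrank K L : ℝ) := ⟨_, rfl⟩
  have hm0 : 0 < mL := by rw [hmL]; exact_mod_cast Module.finrank_pos
  have htow : (Module.finrank ℚ L : ℝ) = d * mL := by
    rw [hd, hmL]
    exact_mod_cast (Module.finrank_mul_finrank ℚ K L).symm
  have hH : ∀ i, Real.log (mulHeight₁ (ξ i)) = mL * logHeight₁ (x i) := by
    intro i
    rw [hξ, hmL, logHeight₁_eq_log_mulHeight₁]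
    exact Pool.Agent.W223.AC.MK.log_height_ext L (x i)
  have hH' : ∀ i, logHeight₁ (ξ i) = mL * logHeight₁ (x i) := by
    intro i
    rw [logHeight₁_eq_log_mulHeight₁]
    exact hH i
  obtain ⟨R, hR⟩ : ∃ R : ℝ, R = ∑ p ∈ S, Real.log p := ⟨_, rfl⟩
  obtain ⟨W1, hW1⟩ : ∃ W1 : ℝ, W1 = ∑ i, ∑ j, (∑ w : InfinitePlace L, (w.mult : ℝ) *
      Pool.Agent.W223.AC.lamI (y i j) (φ i : A i →+* L) w +
        Pool.Agent.W223.AC.mS S (y i j) (φ i : A i →+* L)) := ⟨_, rfl⟩
  obtain ⟨W2, hW2⟩ : ∃ W2 : ℝ, W2 = ∑ p ∈ G, prG S (ξ p.1) (ξ p.2) := ⟨_, rfl⟩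
  have hW2' : ∑ p ∈ G, prG S (algebraMap K L (x p.1)) (algebraMap K L (x p.2)) = W2 := by
    rw [hW2, hξ]
  obtain ⟨N1, hN1⟩ : ∃ N1 : ℝ, N1 = ∑ i,
      ((∑ j, (Module.finrank k (A i ⧸ Ideal.span (Set.range (y i j))) : ℝ)) /
        Module.finrank k[X] (A i) + ε) * logHeight₁ (x i) := ⟨_, rfl⟩
  obtain ⟨N2, hN2⟩ : ∃ N2 : ℝ, N2 = ∑ p ∈ G, (logHeight₁ (x p.1) + logHeight₁ (x p.2)) :=
    ⟨_, rfl⟩
  have hsum1 : ∑ i, wt (AS i) + W1 ≤ mL * N1 + d * mL * ∑ i, Ck i := by
    have h1 := Finset.sum_le_sum fun i (_ : i ∈ (univ : Finset (Fin m))) => hdiff i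
    rw [Finset.sum_add_distrib, ← hW1, Finset.sum_add_distrib] at h1
    refine h1.trans (le_of_eq ?_)
    rw [hN1, Finset.mul_sum, htow, ← Finset.mul_sum]
    congr 1
    refine Finset.sum_congr rfl fun i _ => ?_
    rw [hH]
    ring
  have hsum2 : ∑ p ∈ G, wt (outS S (Mf p)) + W2 ≤
      mL * N2 + d * mL * (G.card * Real.log 2) := by
    have h1 := Finset.sum_le_sum fun p (hp : p ∈ G) => hdia p hp
    rw [Finset.sum_add_distrib, ← hW2, Finset.sum_add_distrib] at h1
    refine h1.trans (le_of_eq ?_)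
    rw [hN2, Finset.mul_sum, htow, Finset.sum_const, nsmul_eq_mul]
    congr 1
    · refine Finset.sum_congr rfl fun p _ => ?_
      rw [hH', hH']
      ring
    · ring
  rw [← hBd, ← hmL, ← hR, ← hW1, hW2', ← hN1, ← hN2, ← hd]
  rw [← hmL] at hbase'
  rw [← hR, htow] at hWle
  have h9 : mL * wt Bd ≤ mL * (wt (Bd.filter fun v => v ∉ S') + wt S') :=
    mul_le_mul_of_nonneg_left hBdle hm0.le
  have e1 : mL * (wt Bd + Real.log |(discr K : ℝ)| -
      (wt S' + d * (∑ i, Ck i + G.card * Real.log 2))) = mL * wt Bd +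
      mL * Real.log |(discr K : ℝ)| - mL * wt S' - d * mL * (∑ i, Ck i) -
      d * mL * (G.card * Real.log 2) := by ring
  have e2 : mL * (N1 + N2 + d * R) = mL * N1 + mL * N2 + d * mL * R := by ring
  rw [e1, e2]
  linarith

end Pool.Agent.Y557.OE
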