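import Pool.Agent.Y557.OE.Set
import Pool.Agent.Y557.OE.LvW

/-!
The proximity functions outside the exceptional set, for curves over a number field `k` and tuples of
elements of another number field `K` (helper557).
-/

set_option autoImplicit false

namespace Pool.Agent.Y557.OE

open NumberField IsDedekindDomain Height Finset Pool.Agent.TH876.Loc Polynomial
open Pool.Agent.H691R3 hiding mt av mt_pos wt
open Pool.Agent.Y728.AK Pool.Agent.Y728.MN
open Pool.Agent.TH876.KR (form counting)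

variable {k₁ K k : Type} [Field k₁] [NumberField k₁] [Field K] [NumberField K] [Field k]
  [NumberField k] [Algebra k₁ K] [Algebra k₁ k] {m q : ℕ} {A : Fin m → Type}
  [∀ i, CommRing (A i)] [∀ i, Algebra k (A i)] [∀ i, Algebra k[X] (A i)]

/-- **the proximity functions outside the exceptional set** -/
theorem coreW [∀ i, IsDedekindDomain (A i)] [∀ i, IsScalarTower k k[X] (A i)]
    [∀ i, Module.Finite k[X] (A i)] [∀ i, FaithfulSMul k[X] (A i)] (hq : 3 ≤ q) (a : Fin q → k₁)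
    (u : Fin m → Fin q → ℕ) (y : ∀ i j, Fin (u i j + 1) → A i)
    (hy0 : ∀ i j, y i j 0 = crd k (A i) - algebraMap k (A i) (algebraMap k₁ k (a j)))
    (hyr : ∀ i j l, y i j l ∈
      (Ideal.span {crd k (A i) - algebraMap k (A i) (algebraMap k₁ k (a j))}).radical)
    {G : Finset (Fin m × Fin m)} (hG : ∀ p ∈ G, p.1 < p.2) {κ : ℝ} (hκ : 0 < κ) :
    ∃ c : ℝ, ∀ x : Fin m → K, (∀ i j, x i ≠ algebraMap k₁ K (a j)) → Function.Injective x →
      ((q : ℝ) + m - 1 - κ / 2) * ∑ i, logHeight₁ (x i) ≤ nn (noS K) (fun j => pK (algebraMap k₁ K (a j))) x →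
      ∀ (L : Type) [Field L] [NumberField L] [Algebra k₁ L] [Algebra K L] [Algebra k L]
        [IsScalarTower k₁ K L] [IsScalarTower k₁ k L]
        (φ : ∀ i, A i →ₐ[k] L), (∀ i, φ i (crd k (A i)) = algebraMap K L (x i)) →
        (∀ i j, {v : HeightOneSpectrum (𝓞 L) |
          Pool.Agent.W223.AC.lamF (y i j) (φ i : A i →+* L) v ≠ 0}.Finite) ∧
        ∀ S : Finset ℕ, (∀ p ∈ S, p.Prime) →
        (Module.finrank K L : ℝ) * (∑ i, ((q : ℝ) - (∑ j, (Module.finrank k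
            (A i ⧸ Ideal.span (Set.range (y i j))) : ℝ)) / Module.finrank k[X] (A i) - κ) *
              logHeight₁ (x i)) +
          (∑ i, ∑ j, (∑ w : InfinitePlace L, (w.mult : ℝ) *
            Pool.Agent.W223.AC.lamI (y i j) (φ i : A i →+* L) w +
              Pool.Agent.W223.AC.mS S (y i j) (φ i : A i →+* L)) +
            ∑ p ∈ G, prG S (φ p.1 (crd k (A p.1))) (φ p.2 (crd k (A p.2)))) ≤
          Real.log |(discr L : ℝ)| + (Module.finrank ℚ L : ℝ) * ∑ p ∈ S, Real.log p +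
            (Module.finrank K L : ℝ) * c := by
  classical
  obtain ⟨C, hlev⟩ := levW (K := K) (by omega : 1 ≤ q) a u y hy0 hyr hG (ε := κ / 2) (by positivity)
  refine ⟨cst (fun j => pK (algebraMap k₁ K (a j))) m + C - Real.log |(discr K : ℝ)|, ?_⟩
  intro x hxa hinj hnn L _ _ _ _ _ _ _ φ hφ
  have hf : ∀ i j, form (pK (algebraMap k₁ K (a j))) (pt (x i)) ≠ 0 :=
    fun i j => form_pt_ne (hxa i j).symm
  have h1 := sub_lower (S := noS K) (a := fun j => pK (algebraMap k₁ K (a j)))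
    (stN_pt fun j => algebraMap k₁ K (a j)) hf hinj
    (Finset.univ : Finset (Fin m × Fin q)) hG (κ := κ / 2) (C₀ := cst (fun j => pK (algebraMap k₁ K (a j))) m) (by
      rw [sub_self, add_zero]
      exact hnn)
  obtain ⟨hfin, h2⟩ := hlev x hf hinj L φ hφ
  refine ⟨hfin, fun S hS => ?_⟩
  have h2 := h2 S hS
  rw [sum_fst (fun i => logHeight₁ (x i))] at h1
  have hW' : ∑ p ∈ G, prG S (φ p.1 (crd k (A p.1))) (φ p.2 (crd k (A p.2))) =
      ∑ p ∈ G, prG S (algebraMap K L (x p.1)) (algebraMap K L (x p.2)) :=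
    Finset.sum_congr rfl fun p _ => by rw [hφ, hφ]
  rw [hW']
  have hfd : FiniteDimensional K L := Module.Finite.of_restrictScalars_finite ℚ K L
  obtain ⟨mL, hmL⟩ : ∃ mL : ℝ, mL = (Module.finrank K L : ℝ) := ⟨_, rfl⟩
  have hm0 : 0 < mL := by rw [hmL]; exact_mod_cast Module.finrank_pos
  obtain ⟨d, hd⟩ : ∃ d : ℝ, d = (Module.finrank ℚ K : ℝ) := ⟨_, rfl⟩
  have htow : (Module.finrank ℚ L : ℝ) = d * mL := by
    rw [hd, hmL]
    exact_mod_cast (Module.finrank_mul_finrank ℚ K L).symm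
  obtain ⟨lK, hlK⟩ : ∃ lK : ℝ, lK = Real.log |(discr K : ℝ)| := ⟨_, rfl⟩
  obtain ⟨lL, hlL⟩ : ∃ lL : ℝ, lL = Real.log |(discr L : ℝ)| := ⟨_, rfl⟩
  obtain ⟨W0, hW0⟩ : ∃ W0 : ℝ, W0 = ∑ i, ∑ j, (∑ w : InfinitePlace L, (w.mult : ℝ) *
      Pool.Agent.W223.AC.lamI (y i j) (φ i : A i →+* L) w +
        Pool.Agent.W223.AC.mS S (y i j) (φ i : A i →+* L)) +
      ∑ p ∈ G, prG S (algebraMap K L (x p.1)) (algebraMap K L (x p.2)) := ⟨_, rfl⟩
  obtain ⟨Rs, hRs⟩ : ∃ Rs : ℝ, Rs = ∑ p ∈ S, Real.log p := ⟨_, rfl⟩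
  obtain ⟨W, hW⟩ : ∃ W : ℝ, W = wt (bdT_fin (S := noS K) (a := fun j => pK (algebraMap k₁ K (a j))) hf hinj
    Finset.univ hG).toFinset := ⟨_, rfl⟩
  obtain ⟨Z, hZ⟩ : ∃ Z : ℝ, Z = ∑ p ∈ G, (logHeight₁ (x p.1) + logHeight₁ (x p.2)) := ⟨_, rfl⟩
  obtain ⟨H, hH⟩ : ∃ H : ℝ, H = ∑ i, logHeight₁ (x i) := ⟨_, rfl⟩
  obtain ⟨N, hN⟩ : ∃ N : ℝ, N = ∑ i, (∑ j, (Module.finrank k
    (A i ⧸ Ideal.span (Set.range (y i j))) : ℝ)) / Module.finrank k[X] (A i) *
      logHeight₁ (x i) := ⟨_, rfl⟩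
  obtain ⟨c0, hc0⟩ : ∃ c0 : ℝ, c0 = cst (fun j => pK (algebraMap k₁ K (a j))) m := ⟨_, rfl⟩
  have e1 : ∑ i, ((∑ j, (Module.finrank k (A i ⧸ Ideal.span (Set.range (y i j))) : ℝ)) /
      Module.finrank k[X] (A i) + κ / 2) * logHeight₁ (x i) = N + κ / 2 * H := by
    rw [hN, hH, Finset.mul_sum, ← Finset.sum_add_distrib]
    exact Finset.sum_congr rfl fun i _ => by ring
  have e2 : ∑ i, ((q : ℝ) - (∑ j, (Module.finrank k (A i ⧸ Ideal.span (Set.range (y i j))) : ℝ)) /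
      Module.finrank k[X] (A i) - κ) * logHeight₁ (x i) = q * H - N - κ * H := by
    rw [hN, hH, Finset.mul_sum, Finset.mul_sum, ← Finset.sum_sub_distrib, ← Finset.sum_sub_distrib]
    exact Finset.sum_congr rfl fun i _ => by ring
  rw [e1, ← hW, ← hW0, ← hZ, ← hmL, ← hlK, ← hlL, ← hRs, ← hd] at h2
  rw [← hW, ← hZ, ← hH, ← hc0] at h1
  rw [e2, ← hW0, ← hmL, ← hlL, ← hRs, ← hc0, ← hlK, htow]
  have h4 : mL * (q * H + Z - κ / 2 * H) ≤ mL * (W + c0) := mul_le_mul_of_nonneg_left h1 hm0.le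
  nlinarith

end Pool.Agent.Y557.OE
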