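import Pool.Agent.Y557.OE.Key
import Pool.Agent.Y728.AK.ProxK2

/-!
Counting functions of the pieces of the fibres of a curve over a number field, and the base change
from the line over `K` (helper557, adapting files of helper223 and helper728).
-/

set_option autoImplicit false

namespace Pool.Agent.Y557.OE

open Polynomial IsDedekindDomain NumberField
open Pool.Agent.W223.AC Pool.Agent.W223.CV

/-- `P = φ` reduces to a point of `z = 0` -/
def Nz (k : Type) {A : Type} [Field k] [CommRing A] [Algebra k[X] A] {s : ℕ} (z : Fin (s + 1) → A)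
    {L : Type} [Field L] [NumberField L] (φ : A →+* L) (v : HeightOneSpectrum (𝓞 L)) : Prop :=
  v.valuation L (φ (algebraMap k[X] A X)) ≤ 1 ∧ ∀ i, v.valuation L (φ (z i)) < 1

section

attribute [local instance] Polynomial.algebra

/-- **counting functions of the pieces of the fibres of a curve over a number field** -/
theorem keyP (K A : Type) [Field K] [NumberField K] [CommRing A] [IsDedekindDomain A]
    [Algebra K A] [Algebra K[X] A] [IsScalarTower K K[X] A] [Module.Finite K[X] A]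
    [FaithfulSMul K[X] A] {q n : ℕ} (a : Fin q → K) (j : Fin n → Fin q) (s : Fin n → ℕ)
    (z : ∀ l, Fin (s l + 1) → A)
    (hz0 : ∀ l, z l 0 = algebraMap K[X] A X - algebraMap K A (a (j l)))
    (hcov : ∀ i, ∏ l with j l = i, Ideal.span (Set.range (z l)) ≤
      (Ideal.span {algebraMap K[X] A X - algebraMap K A (a i)}).radical)
    (ε : ℝ) (hε : 0 < ε) :
    ∃ (M : ℕ) (C : ℝ) (G : ℚ[X]), M ≠ 0 ∧ 0 ≤ C ∧ G ≠ 0 ∧
      ∀ (L : Type) [Field L] [NumberField L] [Algebra K L] (φ : A →ₐ[K] L),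
        aeval (φ (algebraMap K[X] A X)) G ≠ 0 →
        (∀ j, φ (algebraMap K[X] A X) ≠ algebraMap K L (a j)) →
        (∀ l, {v : HeightOneSpectrum (𝓞 L) | Nz K (z l) (φ : A →+* L) v}.Finite) ∧
        (∀ S : Finset ℕ,
          Pool.Agent.Y729.RV.cnt (M.primeFactors ∪ S) a (φ (algebraMap K[X] A X)) ≤
            cc S (fun v : HeightOneSpectrum (𝓞 L) => ∃ l ∈ (Finset.univ : Finset (Fin n)),
              Nz K (z l) (φ : A →+* L) v)) ∧
        ∀ (l : Fin n) (S : Finset ℕ) (e : ℕ),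
          (∀ v : HeightOneSpectrum (𝓞 L), (∀ p ∈ S, (p : 𝓞 L) ∉ v.asIdeal) →
            Nz K (z l) (φ : A →+* L) v →
            ∀ i, v.valuation L (φ (z l i)) ≤ WithZero.exp (-(e : ℤ))) →
          (e : ℝ) * cc S (fun v : HeightOneSpectrum (𝓞 L) => Nz K (z l) (φ : A →+* L) v) ≤
            ((Module.finrank K (A ⧸ Ideal.span (Set.range (z l))) : ℝ) /
              Module.finrank K[X] A + ε) *
              Real.log (Height.mulHeight₁ (φ (algebraMap K[X] A X))) +
                Module.finrank ℚ L * C := by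
  classical
  let iQ := Pool.Agent.Y729.RV.aQ K A
  let iQX := Pool.Agent.Y729.RV.aQX K A
  have i1 : IsScalarTower ℚ ℚ[X] A := Pool.Agent.Y729.RV.tower1 K A
  have i2 : Module.Finite ℚ[X] A := Pool.Agent.Y729.RV.finiteX K A
  have i3 : FaithfulSMul ℚ[X] A := Pool.Agent.Y729.RV.faithfulX K A
  have htt : Pool.Agent.W223.AC.tt A = algebraMap K[X] A X := by
    show algebraMap K[X] A (algebraMap ℚ[X] K[X] X) = _
    rw [Polynomial.algebraMap_def, coe_mapRingHom, map_X]
  have hz1 : ∀ l, z l 0 ≠ 0 := by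
    intro l h
    rw [hz0 l, IsScalarTower.algebraMap_apply K K[X] A, ← map_sub,
      map_eq_zero_iff _ (FaithfulSMul.algebraMap_injective K[X] A)] at h
    exact X_sub_C_ne_zero (a (j l)) h
  have hden := fun j => Pool.Agent.Y728.AK.PX.exists_den K A (a j)
  choose N hN0 hNI using hden
  have hNB' := fun l => Pool.Agent.Y728.AK.PX.nbp A (algebraMap K A (a (j l))) (N (j l))
    (hN0 (j l)) (hNI (j l)) (s l) (z l) (by rw [hz0 l, htt]) (hz1 l) ε hε
  choose C₁ G₁ hC₁ hG₁ hNB'' using hNB'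
  have hNE := fun i : Fin q => nearN Pool.Agent.W989.AC.MULT.t Pool.Agent.W597.AC.t A
    (algebraMap K[X] A X - algebraMap K A (a i)) n s z (Finset.univ.filter fun l => j l = i)
    (hcov i)
  choose M₂ hM₂ hNE' using hNE
  refine ⟨∏ j, M₂ j, ∑ j, C₁ j, ∏ j, G₁ j,
    Finset.prod_ne_zero_iff.mpr fun j _ => hM₂ j,
    Finset.sum_nonneg fun j _ => hC₁ j,
    Finset.prod_ne_zero_iff.mpr fun j _ => hG₁ j, ?_⟩
  intro L _ _ _ φ hG hne
  set x := φ (algebraMap K[X] A X) with hx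
  have hx' : (φ : A →+* L) (Pool.Agent.W223.AC.tt A) = x := by
    rw [htt]
    rfl
  have hNz : ∀ l, Nz K (z l) (φ : A →+* L) = NearP (z l) (φ : A →+* L) := by
    intro l
    funext v
    unfold Nz NearP
    rw [htt]
  obtain ⟨M, hM⟩ : ∃ M, M = ∏ j, M₂ j := ⟨_, rfl⟩
  rw [← hM]
  have hM0 : M ≠ 0 := by rw [hM]; exact Finset.prod_ne_zero_iff.mpr fun j _ => hM₂ j
  have hGj : ∀ l, aeval x (G₁ l) ≠ 0 := by
    intro l
    rw [map_prod, Finset.prod_ne_zero_iff] at hG
    exact hG l (Finset.mem_univ l)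
  have hφa : ∀ j, (φ : A →+* L) (algebraMap K[X] A X - algebraMap K A (a j)) =
      x - algebraMap K L (a j) := by
    intro j
    rw [map_sub]
    show φ _ - φ _ = _
    rw [AlgHom.commutes]
  have hxa : ∀ j, x - algebraMap K L (a j) ≠ 0 := fun j => sub_ne_zero.mpr (hne j)
  have hzne : ∀ l, (φ : A →+* L) (z l 0) ≠ 0 := by
    intro l
    rw [hz0 l, hφa (j l)]
    exact hxa (j l)
  have hlam := fun l => hNB'' l L (φ : A →+* L) (by rw [hx']; exact hGj l) (hzne l)
  have hnf : ∀ l, {v : HeightOneSpectrum (𝓞 L) | NearP (z l) (φ : A →+* L) v}.Finite :=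
    fun l => near_finite (z l) (φ : A →+* L) (hzne l)
  simp only [hNz]
  refine ⟨hnf, fun S => ?_, fun l S e he => ?_⟩
  · have hSM : ∀ v : HeightOneSpectrum (𝓞 L), (∀ p ∈ M.primeFactors, (p : 𝓞 L) ∉ v.asIdeal) →
        (M : 𝓞 L) ∉ v.asIdeal := fun v hv => not_mem_of_primes hM0 fun p hp => hv p hp
    have hfinU : {v : HeightOneSpectrum (𝓞 L) | ∃ l ∈ (Finset.univ : Finset (Fin n)),
        NearP (z l) (φ : A →+* L) v}.Finite := by
      refine (Set.finite_iUnion fun l => hnf l).subset ?_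
      rintro v ⟨l, -, hv⟩
      exact Set.mem_iUnion.2 ⟨l, hv⟩
    rw [Pool.Agent.Y729.RV.cnt_cc]
    refine cc_mono Finset.subset_union_right hfinU ?_
    rintro v hv0 ⟨i, -, h2, h3⟩
    have hv : ∀ p ∈ M.primeFactors, (p : 𝓞 L) ∉ v.asIdeal :=
      fun p hp => hv0 p (Finset.mem_union_left _ hp)
    have hM2v : ((M₂ i : ℕ) : 𝓞 L) ∉ v.asIdeal :=
      not_mem_of_dvd (by rw [hM]; exact Finset.dvd_prod_of_mem M₂ (Finset.mem_univ i)) (hSM v hv)
    obtain ⟨l, -, h5⟩ := hNE' i L (φ : A →+* L) v hM2v (by rw [hx']; exact h2)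
      (by rw [hφa i]; exact h3)
    exact ⟨l, Finset.mem_univ l, by rw [hx']; exact h2, h5⟩
  · have hd : (Module.finrank ℚ K : ℝ) ≠ 0 := by
      have : 0 < Module.finrank ℚ K := Module.finrank_pos
      positivity
    have hrk : (Module.finrank ℚ (A ⧸ Ideal.span (Set.range (z l))) : ℝ) /
        Module.finrank ℚ[X] A =
        (Module.finrank K (A ⧸ Ideal.span (Set.range (z l))) : ℝ) / Module.finrank K[X] A := by
      have e1 : Module.finrank ℚ (A ⧸ Ideal.span (Set.range (z l))) =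
          Module.finrank ℚ K * Module.finrank K (A ⧸ Ideal.span (Set.range (z l))) :=
        Pool.Agent.Y729.RV.dimE K A _
      have e2 : Module.finrank ℚ[X] A = Module.finrank ℚ K * Module.finrank K[X] A :=
        Pool.Agent.Y729.RV.rankX K A
      rw [e1, e2]
      push_cast
      rw [mul_div_mul_left _ _ hd]
    obtain ⟨h6, h7⟩ := hlam l
    have h8 := split_order (z l) (φ : A →+* L) S (hzne l) h6 e he
    rw [hx', hrk] at h7
    have h10 : 0 ≤ ∑ w : InfinitePlace L, (w.mult : ℝ) * lamI (z l) (φ : A →+* L) w :=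
      Finset.sum_nonneg fun w _ => mul_nonneg (Nat.cast_nonneg _) (lamI_nonneg _ _ _)
    have h11 : (Module.finrank ℚ L : ℝ) * C₁ l ≤ Module.finrank ℚ L * ∑ l, C₁ l :=
      mul_le_mul_of_nonneg_left (Finset.single_le_sum (fun l _ => hC₁ l) (Finset.mem_univ l))
        (Nat.cast_nonneg _)
    linarith

end

/-- **base change from the line over `K`** -/
theorem base_all {k₁ K : Type} [Field k₁] [NumberField k₁] [Field K] [NumberField K]
    [Algebra k₁ K] {q : ℕ} (a : Fin q → k₁) (T : Finset ℕ) (hTp : ∀ p ∈ T, p.Prime) :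
    ∃ W : ℝ, 0 ≤ W ∧ ∀ (L : Type) [Field L] [NumberField L] [Algebra k₁ L] [Algebra K L]
      [IsScalarTower k₁ K L] (x : K), (∀ j, x ≠ algebraMap k₁ K (a j)) →
      (Module.finrank K L : ℝ) * (Real.log |(discr K : ℝ)| +
        Pool.Agent.Y728.AK.cntK ∅ (fun j => algebraMap k₁ K (a j)) x) ≤
        Real.log |(discr L : ℝ)| + Pool.Agent.Y729.RV.cnt T a (algebraMap K L x) +
          Module.finrank ℚ L * W := by
  classical
  obtain ⟨b, hb⟩ : ∃ b : Fin q → K, b = fun j => algebraMap k₁ K (a j) := ⟨_, rfl⟩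
  have hbj : ∀ j, algebraMap k₁ K (a j) = b j := fun j => by rw [hb]
  obtain ⟨S', -, hS'1, hS'2⟩ := Pool.Agent.Y728.AK.exists_big b ∅ T hTp
  obtain ⟨W', hW'⟩ : ∃ W' : ℝ, W' = ∑ v ∈ S', Real.log (Ideal.absNorm v.asIdeal : ℝ) := ⟨_, rfl⟩
  have hW0 : 0 ≤ W' := by
    rw [hW']
    exact Finset.sum_nonneg fun v _ => Real.log_natCast_nonneg _
  refine ⟨W', hW0, ?_⟩
  intro L _ _ _ _ _ x hx0
  have hx : ∀ j, x ≠ b j := fun j => by
    rw [← hbj]
    exact hx0 j
  rw [← hb]
  have ecnt : Pool.Agent.Y729.RV.cnt T b (algebraMap K L x) =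
      Pool.Agent.Y729.RV.cnt T a (algebraMap K L x) := by
    rw [hb]
    exact cnt_tower T a _
  rw [← ecnt]
  have hne : ∀ j, algebraMap K L x ≠ algebraMap K L (b j) :=
    fun j h => hx j ((algebraMap K L).injective h)
  have hx' : ∀ j, x ≠ algebraMap K K (b j) := hx
  have hbase := Pool.Agent.Y729.RV.base_change (k := K) (L := L)
    (Pool.Agent.Y729.RV.nr_fin T hx').toFinset (Pool.Agent.Y729.RV.nr_fin T hne).toFinset (by
    intro v hv w hw
    rw [Set.Finite.mem_toFinset] at hv ⊢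
    have hv' : Pool.Agent.Y729.RV.Nr T b x v := hv
    exact (Pool.Agent.Y729.RV.nr_iff T b x v w).2 hv')
  have e1 := Pool.Agent.Y729.RV.cnt_eq T hx'
  have e2 := Pool.Agent.Y729.RV.cnt_eq T hne
  rw [← e1, ← e2] at hbase
  have hle1 := Pool.Agent.Y728.AK.cntK_le hS'1 hS'2 hx
  have hle2 := cntK_le_wt S' b hx
  rw [← hW'] at hle2
  have hfd : FiniteDimensional K L := Module.Finite.of_restrictScalars_finite ℚ K L
  obtain ⟨m, hm⟩ : ∃ m : ℝ, m = (Module.finrank K L : ℝ) := ⟨_, rfl⟩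
  have hm0 : 0 < m := by rw [hm]; exact_mod_cast Module.finrank_pos
  have hmL : m ≤ (Module.finrank ℚ L : ℝ) := by
    rw [hm]
    exact fin_le
  rw [← hm] at hbase ⊢
  have h5 : m * Pool.Agent.Y728.AK.cntK ∅ b x ≤
      m * (Pool.Agent.Y729.RV.cnt T b x + W') :=
    mul_le_mul_of_nonneg_left (by linarith) hm0.le
  have h6 : m * W' ≤ (Module.finrank ℚ L : ℝ) * W' := mul_le_mul_of_nonneg_right hmL hW0
  nlinarith

end Pool.Agent.Y557.OE
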