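import Pool.Agent.Y557.OE.Trans
import Pool.Agent.Y728.MN.Fin

/-!
The key inequalities for all points of curves above the elements of a subfield (helper557).
-/

set_option autoImplicit false

namespace Pool.Agent.Y557.OE

open NumberField IsDedekindDomain Height Finset Pool.Agent.TH876.Loc Polynomial
open Pool.Agent.H691R3 hiding mt av mt_pos
open Pool.Agent.Y728.AK
open Pool.Agent.Y728.MN (outS mem_outS wt_outS wt nr_fin wt_nr_le meet_iff form_pt_ne wt_mono
  wt_biUnion_le pt meet_pt)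
open Pool.Agent.Y729.RV (Nr cnt)
open Pool.Agent.W223.AC (lamF lamI mS lamF_nonneg lamI_nonneg)

section

variable {k₀ L : Type} [Field k₀] [NumberField k₀] [Field L] [NumberField L] [Algebra k₀ L]
  {q : ℕ}

theorem fin_le : (Module.finrank k₀ L : ℝ) ≤ (Module.finrank ℚ L : ℝ) := by
  have hfd : FiniteDimensional k₀ L := Module.Finite.of_restrictScalars_finite ℚ k₀ L
  have hm0 : (0 : ℝ) < (Module.finrank k₀ L : ℝ) := by exact_mod_cast Module.finrank_pos
  have h3 : (Module.finrank ℚ L : ℝ) = (Module.finrank ℚ k₀ : ℝ) * (Module.finrank k₀ L : ℝ) := by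
    exact_mod_cast (Module.finrank_mul_finrank ℚ k₀ L).symm
  have h4 : (1 : ℝ) ≤ (Module.finrank ℚ k₀ : ℝ) := by
    exact_mod_cast Nat.succ_le_of_lt (Module.finrank_pos (R := ℚ) (M := k₀))
  rw [h3]
  nlinarith

theorem ht_ext (x : k₀) : logHeight₁ (algebraMap k₀ L x) =
    (Module.finrank k₀ L : ℝ) * logHeight₁ x := by
  rw [logHeight₁_eq_log_mulHeight₁, logHeight₁_eq_log_mulHeight₁]
  exact Pool.Agent.W223.AC.MK.log_height_ext L x

/-- the trivial bound of the counting function -/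
theorem cnt_le_ht (T : Finset ℕ) (a : Fin q → k₀) {x : k₀} (hx : ∀ j, x ≠ a j) :
    cnt T a (algebraMap k₀ L x) ≤
      (Module.finrank ℚ L : ℝ) * ∑ j, (logHeight₁ x + logHeight₁ (a j) + Real.log 2) := by
  classical
  have hne : ∀ j, algebraMap k₀ L x ≠ algebraMap k₀ L (a j) :=
    fun j h => hx j ((algebraMap k₀ L).injective h)
  have hf : ∀ j, Pool.Agent.TH876.KR.form (pt (algebraMap k₀ L x)) (pt (algebraMap k₀ L (a j))) ≠
      0 := fun j => form_pt_ne (hne j)
  rw [Pool.Agent.Y729.RV.cnt_eq T hne]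
  have h1 : (Pool.Agent.Y729.RV.nr_fin T hne).toFinset ⊆
      (univ : Finset (Fin q)).biUnion fun j => (nr_fin (hf j)).toFinset := by
    intro w hw
    rw [Set.Finite.mem_toFinset] at hw
    obtain ⟨-, h2, j, h3⟩ := hw
    rw [Finset.mem_biUnion]
    refine ⟨j, Finset.mem_univ _, ?_⟩
    rw [Set.Finite.mem_toFinset]
    refine (meet_iff w _ _).1 ((meet_pt w _ _).2 (h3.trans_le ?_))
    exact one_le_mul (le_max_right _ _) (le_max_right _ _)
  refine (wt_mono h1).trans ((wt_biUnion_le _ _).trans ?_)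
  rw [Finset.mul_sum]
  refine Finset.sum_le_sum fun j _ => ?_
  refine (wt_nr_le (hf j)).trans ?_
  rw [ht_ext, ht_ext, NumberField.totalWeight_eq_finrank]
  have h4 := mul_le_mul_of_nonneg_right (fin_le (k₀ := k₀) (L := L)) (zero_le_logHeight₁ x)
  have h5 := mul_le_mul_of_nonneg_right (fin_le (k₀ := k₀) (L := L)) (zero_le_logHeight₁ (a j))
  linarith

end

/-- counting functions relative to the bigger and to the smaller field -/
theorem cnt_tower {k₀ k L : Type} [Field k₀] [Field k] [Field L] [NumberField L] [Algebra k₀ k]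
    [Algebra k₀ L] [Algebra k L] [IsScalarTower k₀ k L] {q : ℕ} (T : Finset ℕ) (a : Fin q → k₀)
    (ξ : L) : cnt T (fun j => algebraMap k₀ k (a j)) ξ = cnt T a ξ := by
  have h : ∀ j, algebraMap k L (algebraMap k₀ k (a j)) = algebraMap k₀ L (a j) :=
    fun j => (IsScalarTower.algebraMap_apply k₀ k L (a j)).symm
  have h2 : ∀ w : HeightOneSpectrum (𝓞 L), Nr T (fun j => algebraMap k₀ k (a j)) ξ w ↔
      Nr T a ξ w := by
    intro w
    unfold Nr
    simp only [h]
  unfold cnt
  refine finsum_congr fun w => ?_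
  by_cases h3 : Nr T a ξ w
  · rw [if_pos h3, if_pos ((h2 w).2 h3)]
  · rw [if_neg h3, if_neg fun h4 => h3 ((h2 w).1 h4)]

/-- **the truncated counting function on one curve** -/
theorem keyAll (k₀ k A : Type) [Field k₀] [NumberField k₀] [Field k] [NumberField k]
    [Algebra k₀ k] [CommRing A] [IsDedekindDomain A] [Algebra k A] [Algebra k[X] A]
    [IsScalarTower k k[X] A] [Module.Finite k[X] A] [FaithfulSMul k[X] A] {q : ℕ} (hq : 1 ≤ q)
    (a : Fin q → k₀) (u : Fin q → ℕ) (y : ∀ j, Fin (u j) → A)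
    (E : Fin q → Ideal A) (hE : ∀ j, E j ≠ ⊥)
    (hyE : ∀ j i, ∀ e ∈ E j, y j i * e ∈
      (Ideal.span {algebraMap k[X] A X - algebraMap k A (algebraMap k₀ k (a j))}).radical)
    (ε : ℝ) (hε : 0 < ε) :
    ∃ (M : ℕ) (C : ℝ), M ≠ 0 ∧ 0 ≤ C ∧
      ∀ (S : Finset ℕ) (L : Type) [Field L] [NumberField L] [Algebra k₀ L] [Algebra k L]
        [IsScalarTower k₀ k L] (φ : A →ₐ[k] L) (x : k₀),
        φ (algebraMap k[X] A X) = algebraMap k₀ L x → (∀ j, x ≠ a j) →
        cnt (S ∪ M.primeFactors) a (algebraMap k₀ L x) ≤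
          Pool.Agent.W223.CV.cc S (fun v : HeightOneSpectrum (𝓞 L) =>
            v.valuation L (algebraMap k₀ L x) ≤ 1 ∧
            ∃ j, v.valuation L (algebraMap k₀ L x - algebraMap k₀ L (a j)) < 1 ∧
              ∀ i, v.valuation L (φ (y j i)) < 1) +
          ((∑ j, (Module.finrank k (A ⧸ E j) : ℝ)) / Module.finrank k[X] A + ε) *
            ((Module.finrank k₀ L : ℝ) * logHeight₁ x) + Module.finrank ℚ L * C := by
  classical
  obtain ⟨M, C, G, hM, hC, hG, hkey⟩ := Pool.Agent.Y729.RV.keyK Pool.Agent.Y728.MN.partNB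
    Pool.Agent.W460.AC.t Pool.Agent.W989.AC.MULT.t Pool.Agent.W597.AC.t k A hq
    (fun j => algebraMap k₀ k (a j)) u y E hE hyE ε hε
  have hR : {z : k₀ | aeval z G = 0}.Finite := by
    refine (Polynomial.rootSet_finite G k₀).subset fun z hz => ?_
    exact (Polynomial.mem_rootSet_of_ne hG).mpr hz
  obtain ⟨c, hc⟩ : ∃ c : k₀ → ℝ, c = fun x =>
    ∑ j, (logHeight₁ x + logHeight₁ (a j) + Real.log 2) := ⟨_, rfl⟩
  have hc0 : ∀ x, 0 ≤ c x := fun x => by
    rw [hc]
    refine Finset.sum_nonneg fun j _ => ?_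
    have h1 := zero_le_logHeight₁ x
    have h2 := zero_le_logHeight₁ (a j)
    have h3 := Real.log_nonneg (one_le_two : (1 : ℝ) ≤ 2)
    linarith
  obtain ⟨C', hC'⟩ : ∃ C' : ℝ, C' = C + ∑ x ∈ hR.toFinset, c x := ⟨_, rfl⟩
  have hCC : C ≤ C' := by
    rw [hC']
    have := Finset.sum_nonneg fun x (_ : x ∈ hR.toFinset) => hc0 x
    linarith
  refine ⟨M, C', hM, hC.trans hCC, ?_⟩
  intro S L _ _ _ _ _ φ x hφ hx
  have hL0 : (0 : ℝ) ≤ (Module.finrank ℚ L : ℝ) := Nat.cast_nonneg _
  have hne : ∀ j, algebraMap k₀ L x ≠ algebraMap k L (algebraMap k₀ k (a j)) := by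
    intro j h
    rw [← IsScalarTower.algebraMap_apply] at h
    exact hx j ((algebraMap k₀ L).injective h)
  by_cases hGx : aeval x G ≠ 0
  · have h1 := hkey S L φ (by
      rw [hφ, aeval_algebraMap_apply]
      intro h
      exact hGx ((map_eq_zero _).1 h)) (by
      intro j
      rw [hφ]
      exact hne j)
    have htw : ∀ j, algebraMap k L (algebraMap k₀ k (a j)) = algebraMap k₀ L (a j) :=
      fun j => (IsScalarTower.algebraMap_apply k₀ k L (a j)).symm
    rw [hφ, cnt_tower] at h1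
    simp only [htw] at h1
    have e1 : Real.log (mulHeight₁ (algebraMap k₀ L x)) =
        (Module.finrank k₀ L : ℝ) * logHeight₁ x := ht_ext x
    rw [e1] at h1
    refine h1.trans ?_
    have h2 := mul_le_mul_of_nonneg_left hCC hL0
    linarith
  · rw [not_not] at hGx
    have hxR : x ∈ hR.toFinset := (Set.Finite.mem_toFinset hR).2 hGx
    have h2 : c x ≤ C' := by
      rw [hC']
      have h3 := Finset.single_le_sum (fun z (_ : z ∈ hR.toFinset) => hc0 z) hxR
      linarith
    have h3 := cnt_le_ht (L := L) (S ∪ M.primeFactors) a hx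
    have h4 : 0 ≤ Pool.Agent.W223.CV.cc S (fun v : HeightOneSpectrum (𝓞 L) =>
        v.valuation L (algebraMap k₀ L x) ≤ 1 ∧
        ∃ j, v.valuation L (algebraMap k₀ L x - algebraMap k₀ L (a j)) < 1 ∧
          ∀ i, v.valuation L (φ (y j i)) < 1) := by
      unfold Pool.Agent.W223.CV.cc
      refine finsum_nonneg fun v => ?_
      unfold Pool.Agent.W223.CV.ct
      split_ifs
      · exact Real.log_natCast_nonneg _
      · exact le_rfl
    have h5 : 0 ≤ ((∑ j, (Module.finrank k (A ⧸ E j) : ℝ)) / Module.finrank k[X] A + ε) *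
        ((Module.finrank k₀ L : ℝ) * logHeight₁ x) :=
      mul_nonneg (by positivity) (mul_nonneg (Nat.cast_nonneg _) (zero_le_logHeight₁ x))
    have h6 := mul_le_mul_of_nonneg_left h2 hL0
    have h7 : (Module.finrank ℚ L : ℝ) * ∑ j, (logHeight₁ x + logHeight₁ (a j) + Real.log 2) =
        (Module.finrank ℚ L : ℝ) * c x := by rw [hc]
    linarith

/-- **counting and proximity functions on one curve** -/
theorem proxAll (k₀ k A : Type) [Field k₀] [NumberField k₀] [Field k] [NumberField k]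
    [Algebra k₀ k] [CommRing A] [IsDedekindDomain A] [Algebra k A] [Algebra k[X] A]
    [IsScalarTower k k[X] A] [Module.Finite k[X] A] [FaithfulSMul k[X] A] {q : ℕ} (hq : 1 ≤ q)
    (a : Fin q → k₀) (s : Fin q → ℕ) (y : ∀ j, Fin (s j + 1) → A)
    (hy0 : ∀ j, y j 0 = algebraMap k[X] A X - algebraMap k A (algebraMap k₀ k (a j)))
    (hyr : ∀ j i, y j i ∈
      (Ideal.span {algebraMap k[X] A X - algebraMap k A (algebraMap k₀ k (a j))}).radical)
    (ε : ℝ) (hε : 0 < ε) :
    ∃ (M : ℕ) (C : ℝ), M ≠ 0 ∧ 0 ≤ C ∧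
      ∀ (L : Type) [Field L] [NumberField L] [Algebra k₀ L] [Algebra k L] [IsScalarTower k₀ k L]
        (φ : A →ₐ[k] L) (x : k₀), φ (algebraMap k[X] A X) = algebraMap k₀ L x →
        (∀ j, x ≠ a j) →
        (∀ j, {v : HeightOneSpectrum (𝓞 L) | lamF (y j) (φ : A →+* L) v ≠ 0}.Finite) ∧
        ∀ S : Finset ℕ, (∀ p ∈ S, p.Prime) →
        cnt (M.primeFactors ∪ S) a (algebraMap k₀ L x) + prx S y (φ : A →+* L) ≤
          ((∑ j, (Module.finrank k (A ⧸ Ideal.span (Set.range (y j))) : ℝ)) /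
            Module.finrank k[X] A + ε) * ((Module.finrank k₀ L : ℝ) * logHeight₁ x) +
              Module.finrank ℚ L * C := by
  classical
  obtain ⟨M, C, G, hM, hC, hG, hkey⟩ := Pool.Agent.Y728.AK.PX.proxK2 k A hq
    (fun j => algebraMap k₀ k (a j)) s y hy0 hyr ε hε
  have hR : {z : k₀ | aeval z G = 0}.Finite := by
    refine (Polynomial.rootSet_finite G k₀).subset fun z hz => ?_
    exact (Polynomial.mem_rootSet_of_ne hG).mpr hz
  obtain ⟨c, hc⟩ : ∃ c : k₀ → ℝ, c = fun x =>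
    ∑ j, (logHeight₁ x + logHeight₁ (a j) + Real.log 2) + ∑ j, logHeight₁ (x - a j) := ⟨_, rfl⟩
  have hlog2 := Real.log_nonneg (one_le_two : (1 : ℝ) ≤ 2)
  have hc0 : ∀ x, 0 ≤ c x := fun x => by
    rw [hc]
    refine add_nonneg (Finset.sum_nonneg fun j _ => ?_)
      (Finset.sum_nonneg fun j _ => zero_le_logHeight₁ _)
    have h1 := zero_le_logHeight₁ x
    have h2 := zero_le_logHeight₁ (a j)
    linarith
  obtain ⟨C', hC'⟩ : ∃ C' : ℝ, C' = C + ∑ x ∈ hR.toFinset, c x := ⟨_, rfl⟩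
  have hCC : C ≤ C' := by
    rw [hC']
    have := Finset.sum_nonneg fun x (_ : x ∈ hR.toFinset) => hc0 x
    linarith
  refine ⟨M, C', hM, hC.trans hCC, ?_⟩
  intro L _ _ _ _ _ φ x hφ hx
  have hL0 : (0 : ℝ) ≤ (Module.finrank ℚ L : ℝ) := Nat.cast_nonneg _
  have hy : ∀ j, φ (y j 0) = algebraMap k₀ L (x - a j) := by
    intro j
    rw [hy0, map_sub, hφ, map_sub, AlgHom.commutes, ← IsScalarTower.algebraMap_apply]
  have hyne : ∀ j, (φ : A →+* L) (y j 0) ≠ 0 := by
    intro j
    show φ (y j 0) ≠ 0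
    rw [hy]
    intro h3
    exact hx j (sub_eq_zero.1 ((map_eq_zero _).1 h3))
  refine ⟨fun j => (prox_le ∅ (y j) (φ : A →+* L) (hyne j)).1, fun S hS => ?_⟩
  have hne : ∀ j, algebraMap k₀ L x ≠ algebraMap k L (algebraMap k₀ k (a j)) := by
    intro j h
    rw [← IsScalarTower.algebraMap_apply] at h
    exact hx j ((algebraMap k₀ L).injective h)
  by_cases hGx : aeval x G ≠ 0
  · have h1 := (hkey L φ (by
      rw [hφ, aeval_algebraMap_apply]
      intro h
      exact hGx ((map_eq_zero _).1 h)) (by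
      intro j
      rw [hφ]
      exact hne j)).2 S hS
    rw [hφ, cnt_tower] at h1
    have e1 : Real.log (mulHeight₁ (algebraMap k₀ L x)) =
        (Module.finrank k₀ L : ℝ) * logHeight₁ x := ht_ext x
    rw [e1] at h1
    unfold prx
    refine h1.trans ?_
    have h2 := mul_le_mul_of_nonneg_left hCC hL0
    linarith
  · rw [not_not] at hGx
    have hxR : x ∈ hR.toFinset := (Set.Finite.mem_toFinset hR).2 hGx
    have h2 : c x ≤ C' := by
      rw [hC']
      have h3 := Finset.single_le_sum (fun z (_ : z ∈ hR.toFinset) => hc0 z) hxR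
      linarith
    have h3 := cnt_le_ht (L := L) (M.primeFactors ∪ S) a hx
    have h4 : prx S y (φ : A →+* L) ≤
        (Module.finrank ℚ L : ℝ) * ∑ j, logHeight₁ (x - a j) := by
      unfold prx
      rw [Finset.mul_sum]
      refine Finset.sum_le_sum fun j _ => ?_
      refine (prox_le S (y j) (φ : A →+* L) (hyne j)).2.trans ?_
      have h5 : logHeight₁ ((φ : A →+* L) (y j 0)) =
          (Module.finrank k₀ L : ℝ) * logHeight₁ (x - a j) := by
        show logHeight₁ (φ (y j 0)) = _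
        rw [hy, ht_ext]
      rw [h5]
      exact mul_le_mul_of_nonneg_right fin_le (zero_le_logHeight₁ _)
    have h5 : 0 ≤ ((∑ j, (Module.finrank k (A ⧸ Ideal.span (Set.range (y j))) : ℝ)) /
        Module.finrank k[X] A + ε) * ((Module.finrank k₀ L : ℝ) * logHeight₁ x) :=
      mul_nonneg (by positivity) (mul_nonneg (Nat.cast_nonneg _) (zero_le_logHeight₁ x))
    have h6 := mul_le_mul_of_nonneg_left h2 hL0
    have h7 : (Module.finrank ℚ L : ℝ) * c x =
        (Module.finrank ℚ L : ℝ) * ∑ j, (logHeight₁ x + logHeight₁ (a j) + Real.log 2) +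
          (Module.finrank ℚ L : ℝ) * ∑ j, logHeight₁ (x - a j) := by rw [hc]; ring
    linarith

end Pool.Agent.Y557.OE
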