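import Pool.Agent.Y728.MN.LvR

/-!
Points of curves above the elements of a subfield: from the truncated counting function on the line
to the proximity function on the curve (helper557).
-/

set_option autoImplicit false

namespace Pool.Agent.Y557.OE

open NumberField IsDedekindDomain Height Finset Pool.Agent.TH876.Loc Polynomial
open Pool.Agent.H691R3 hiding mt av mt_pos
open Pool.Agent.Y728.AK
open Pool.Agent.Y728.MN (outS mem_outS wt_outS)
open Pool.Agent.W223.AC (lamF lamI mS lamF_nonneg lamI_nonneg)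

section one

variable {A : Type} [CommRing A] {s : ℕ} {L : Type} [Field L] [NumberField L]

/-- the trivial bound of the proximity function -/
theorem prox_le (S : Finset ℕ) (z : Fin (s + 1) → A) (φ : A →+* L) (hz : φ (z 0) ≠ 0) :
    {v : HeightOneSpectrum (𝓞 L) | lamF z φ v ≠ 0}.Finite ∧
    ∑ w : InfinitePlace L, (w.mult : ℝ) * lamI z φ w + mS S z φ ≤ logHeight₁ (φ (z 0)) := by
  obtain ⟨hf, h1⟩ := Pool.Agent.W223.AC.SUMP.t L (φ (z 0)) 1 1 1 (fun v => lamF z φ v)
    (fun w => lamI z φ w) hz one_ne_zero le_rfl le_rfl (fun v => lamF_nonneg z φ v)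
    (by
      intro v hv
      have h2 := Pool.Agent.W223.AC.sup_aux (fun i => fv v (φ (z i))) ((fv v).pos hz) hv 0
      rw [Nat.cast_one, map_one, mul_one, Nat.cast_one, one_mul]
      exact h2)
    (fun w => lamI_nonneg z φ w)
    (by
      intro w hw
      have h2 := Pool.Agent.W223.AC.sup_aux (fun i => w (φ (z i)))
        ((InfinitePlace.pos_iff).mpr hz) hw 0
      rw [Nat.cast_one, one_mul, one_mul]
      exact h2)
  refine ⟨hf, ?_⟩
  have h2 : mS S z φ ≤ ∑ᶠ v : HeightOneSpectrum (𝓞 L), lamF z φ v := by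
    unfold mS
    rw [finsum_eq_sum_of_support_subset (s := hf.toFinset), finsum_eq_sum_of_support_subset
      (s := hf.toFinset)]
    · refine Finset.sum_le_sum fun v _ => ?_
      split_ifs
      · exact le_rfl
      · exact lamF_nonneg z φ v
    · intro v hv
      rw [Set.Finite.coe_toFinset]
      exact hv
    · intro v hv
      rw [Function.mem_support] at hv
      rw [Set.Finite.coe_toFinset]
      intro h
      apply hv
      rw [h, ite_self]
  rw [Real.log_one, Nat.cast_one, Real.log_one, add_zero, mul_zero, add_zero, one_mul] at h1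
  rw [logHeight₁_eq_log_mulHeight₁]
  linarith

end one

section trans

variable {k₀ k : Type} [Field k₀] [NumberField k₀] [Field k] [NumberField k] [Algebra k₀ k]
  {q : ℕ}

/-- the sum of the proximity functions -/
noncomputable def prx {A : Type} [CommRing A] (S : Finset ℕ) {s : Fin q → ℕ}
    (y : ∀ j, Fin (s j + 1) → A) {L : Type} [Field L] [NumberField L] (φ : A →+* L) : ℝ :=
  ∑ j, (∑ w : InfinitePlace L, (w.mult : ℝ) * lamI (y j) φ w + mS S (y j) φ)

theorem cntK_nonneg (S : Finset (HeightOneSpectrum (𝓞 k₀))) (a : Fin q → k₀) (x : k₀) :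
    0 ≤ cntK S a x := by
  unfold cntK
  refine finsum_nonneg fun v => ?_
  split_ifs
  · exact Real.log_natCast_nonneg _
  · exact le_rfl

/-- leaving out finitely many primes -/
theorem cntK_le_wt (S' : Finset (HeightOneSpectrum (𝓞 k₀))) (a : Fin q → k₀) {x : k₀}
    (hx : ∀ j, x ≠ a j) :
    cntK ∅ a x ≤ cntK S' a x + ∑ v ∈ S', Real.log (Ideal.absNorm v.asIdeal : ℝ) := by
  classical
  have hfin : {v : HeightOneSpectrum (𝓞 k₀) | ∃ j, NearK (a j) x v}.Finite := by
    refine (Set.finite_iUnion fun j => nearK_finite (hx j)).subset ?_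
    rintro v ⟨j, hj⟩
    exact Set.mem_iUnion.2 ⟨j, hj⟩
  have e : ∀ T : Finset (HeightOneSpectrum (𝓞 k₀)), cntK T a x =
      ∑ v ∈ hfin.toFinset, if v ∉ T then Real.log (Ideal.absNorm v.asIdeal : ℝ) else 0 := by
    intro T
    unfold cntK
    rw [finsum_eq_sum_of_support_subset (s := hfin.toFinset)]
    · refine Finset.sum_congr rfl fun v hv => ?_
      have hv' : ∃ j, NearK (a j) x v := (Set.Finite.mem_toFinset hfin).1 hv
      by_cases h : v ∉ T
      · rw [if_pos h]
        exact if_pos ⟨h, hv'⟩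
      · rw [if_neg h]
        exact if_neg fun h' => h h'.1
    · intro v hv
      rw [Set.Finite.coe_toFinset]
      by_contra hcon
      exact hv (if_neg fun h => hcon h.2)
  rw [e ∅, e S']
  have h0 : ∀ v : HeightOneSpectrum (𝓞 k₀), 0 ≤ Real.log (Ideal.absNorm v.asIdeal : ℝ) :=
    fun v => Real.log_natCast_nonneg _
  have h1 : ∑ v ∈ hfin.toFinset, (if v ∈ S' then Real.log (Ideal.absNorm v.asIdeal : ℝ) else 0) ≤
      ∑ v ∈ S', Real.log (Ideal.absNorm v.asIdeal : ℝ) := by
    rw [← Finset.sum_filter]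
    refine Finset.sum_le_sum_of_subset_of_nonneg (fun v hv => (Finset.mem_filter.1 hv).2)
      fun v _ _ => h0 v
  refine le_trans (le_of_eq ?_) (add_le_add_right h1 _)
  rw [← Finset.sum_add_distrib]
  refine Finset.sum_congr rfl fun v _ => ?_
  by_cases h : v ∈ S'
  · rw [if_pos (Finset.notMem_empty v), if_neg (not_not.2 h), if_pos h, zero_add]
  · rw [if_pos (Finset.notMem_empty v), if_pos h, if_neg h, add_zero]

/-- **from the line to the curve**, away from the zeros of a polynomial -/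
theorem trans_gen (k₀ k A : Type) [Field k₀] [NumberField k₀] [Field k] [NumberField k]
    [Algebra k₀ k] [CommRing A] [IsDedekindDomain A] [Algebra k A] [Algebra k[X] A]
    [IsScalarTower k k[X] A] [Module.Finite k[X] A] [FaithfulSMul k[X] A] {q : ℕ} (hq : 1 ≤ q)
    (a : Fin q → k₀) (s : Fin q → ℕ) (y : ∀ j, Fin (s j + 1) → A)
    (hy0 : ∀ j, y j 0 = algebraMap k[X] A X - algebraMap k A (algebraMap k₀ k (a j)))
    (hyr : ∀ j i, y j i ∈
      (Ideal.span {algebraMap k[X] A X - algebraMap k A (algebraMap k₀ k (a j))}).radical)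
    {ε : ℝ} (hε : 0 < ε) :
    ∃ (C : ℝ) (G : ℚ[X]), 0 ≤ C ∧ G ≠ 0 ∧
      ∀ (L : Type) [Field L] [NumberField L] [Algebra k₀ L] [Algebra k L] [IsScalarTower k₀ k L]
        (φ : A →ₐ[k] L) (x : k₀), φ (algebraMap k[X] A X) = algebraMap k₀ L x →
        (∀ j, x ≠ a j) → aeval x G ≠ 0 →
        ∀ S : Finset ℕ, (∀ p ∈ S, p.Prime) →
          (Module.finrank k₀ L : ℝ) * (Real.log |(discr k₀ : ℝ)| + cntK ∅ a x) +
            prx S y (φ : A →+* L) ≤
          Real.log |(discr L : ℝ)| + (Module.finrank k₀ L : ℝ) *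
            (((∑ j, (Module.finrank k (A ⧸ Ideal.span (Set.range (y j))) : ℝ)) /
              Module.finrank k[X] A + ε) * logHeight₁ x) +
            (Module.finrank ℚ L : ℝ) * (∑ p ∈ S, Real.log p + C) := by
  classical
  obtain ⟨M, C, G, hM, hC, hG, hkey⟩ := Pool.Agent.Y728.AK.PX.proxK2 k A hq
    (fun j => algebraMap k₀ k (a j)) s y hy0 hyr ε hε
  obtain ⟨T, hT⟩ : ∃ T : Finset ℕ, T = M.primeFactors := ⟨_, rfl⟩
  have hTp : ∀ p ∈ T, p.Prime := fun p hp => Nat.prime_of_mem_primeFactors (hT ▸ hp)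
  obtain ⟨S', -, hS'1, hS'2⟩ := exists_big a ∅ T hTp
  obtain ⟨W', hW'⟩ : ∃ W' : ℝ, W' = ∑ v ∈ S', Real.log (Ideal.absNorm v.asIdeal : ℝ) := ⟨_, rfl⟩
  have hW0 : 0 ≤ W' := by
    rw [hW']
    exact Finset.sum_nonneg fun v _ => Real.log_natCast_nonneg _
  refine ⟨C + W', G, by positivity, hG, ?_⟩
  intro L _ _ _ _ _ φ x hφ hx hGx S hS
  have hne : ∀ j, algebraMap k₀ L x ≠ algebraMap k L (algebraMap k₀ k (a j)) := by
    intro j h
    rw [← IsScalarTower.algebraMap_apply] at h
    exact hx j ((algebraMap k₀ L).injective h)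
  obtain ⟨-, h1⟩ := hkey L φ (by
    rw [hφ, aeval_algebraMap_apply]
    intro h
    exact hGx ((map_eq_zero _).1 h)) (by
    intro j
    rw [hφ]
    exact hne j)
  have h1 := h1 S hS
  rw [hφ] at h1
  have hht : Real.log (mulHeight₁ (algebraMap k₀ L x)) =
      (Module.finrank k₀ L : ℝ) * logHeight₁ x := by
    rw [logHeight₁_eq_log_mulHeight₁]
    exact Pool.Agent.W223.AC.MK.log_height_ext L x
  rw [hht, ← hT] at h1
  -- the base change
  have hx' : ∀ j, x ≠ algebraMap k₀ k₀ (a j) := hx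
  have hbase := Pool.Agent.Y729.RV.base_change (k := k₀) (L := L)
    (Pool.Agent.Y729.RV.nr_fin T hx').toFinset (Pool.Agent.Y729.RV.nr_fin T hne).toFinset (by
    intro v hv w hw
    rw [Set.Finite.mem_toFinset] at hv ⊢
    have hv' : Pool.Agent.Y729.RV.Nr T a x v := hv
    have h2 := (Pool.Agent.Y729.RV.nr_iff T a x v w).2 hv'
    obtain ⟨h3, h4, j, h5⟩ := h2
    refine ⟨h3, h4, j, ?_⟩
    rw [← IsScalarTower.algebraMap_apply]
    exact h5)
  have e1 := Pool.Agent.Y729.RV.cnt_eq T hx'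
  have e2 := Pool.Agent.Y729.RV.cnt_eq T hne
  rw [← e1, ← e2] at hbase
  -- the primes above `S`
  have hout := wt_outS S hS (Pool.Agent.Y729.RV.nr_fin T hne).toFinset
  have hle1 := cntK_le hS'1 hS'2 hx
  have hle2 := cntK_le_wt S' a hx
  rw [← hW'] at hle2
  have hout' : Pool.Agent.Y729.RV.cnt T (fun j => algebraMap k₀ k (a j)) (algebraMap k₀ L x) ≤
      Pool.Agent.Y729.RV.cnt (T ∪ S) (fun j => algebraMap k₀ k (a j)) (algebraMap k₀ L x) +
        Module.finrank ℚ L * ∑ p ∈ S, Real.log p := by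
    rw [e2]
    refine le_trans hout (add_le_add_left (le_of_eq ?_) _)
    rw [Pool.Agent.Y729.RV.cnt_eq (T ∪ S) hne]
    refine Finset.sum_congr (Finset.ext fun w => ?_) fun w _ => rfl
    rw [mem_outS, Set.Finite.mem_toFinset, Set.Finite.mem_toFinset]
    constructor
    · rintro ⟨⟨h3, h4⟩, h5⟩
      refine ⟨fun p hp hpw => ?_, h4⟩
      rcases Finset.mem_union.1 hp with hp | hp
      · exact h3 p hp hpw
      · exact h5 ⟨p, hp, hpw⟩
    · rintro ⟨h3, h4⟩
      exact ⟨⟨fun p hp => h3 p (Finset.mem_union_left _ hp), h4⟩,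
        fun ⟨p, hp, hpw⟩ => h3 p (Finset.mem_union_right _ hp) hpw⟩
  have hfd : FiniteDimensional k₀ L := Module.Finite.of_restrictScalars_finite ℚ k₀ L
  obtain ⟨m, hm⟩ : ∃ m : ℝ, m = (Module.finrank k₀ L : ℝ) := ⟨_, rfl⟩
  have hm0 : 0 < m := by rw [hm]; exact_mod_cast Module.finrank_pos
  have hmL : m ≤ (Module.finrank ℚ L : ℝ) := by
    have h3 : (Module.finrank ℚ L : ℝ) = (Module.finrank ℚ k₀ : ℝ) * m := by
      rw [hm]
      exact_mod_cast (Module.finrank_mul_finrank ℚ k₀ L).symm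
    have h4 : (1 : ℝ) ≤ (Module.finrank ℚ k₀ : ℝ) := by
      exact_mod_cast Nat.succ_le_of_lt (Module.finrank_pos (R := ℚ) (M := k₀))
    rw [h3]
    nlinarith
  unfold prx
  rw [← hm] at h1 hbase ⊢
  have h5 : m * cntK ∅ a x ≤ m * (Pool.Agent.Y729.RV.cnt T a x + W') :=
    mul_le_mul_of_nonneg_left (by linarith) hm0.le
  have h6 : m * W' ≤ (Module.finrank ℚ L : ℝ) * W' := mul_le_mul_of_nonneg_right hmL hW0
  nlinarith

/-- **from the line to the curve** -/
theorem trans_all (k₀ k A : Type) [Field k₀] [NumberField k₀] [Field k] [NumberField k]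
    [Algebra k₀ k] [CommRing A] [IsDedekindDomain A] [Algebra k A] [Algebra k[X] A]
    [IsScalarTower k k[X] A] [Module.Finite k[X] A] [FaithfulSMul k[X] A] {q : ℕ} (hq : 1 ≤ q)
    (a : Fin q → k₀) (s : Fin q → ℕ) (y : ∀ j, Fin (s j + 1) → A)
    (hy0 : ∀ j, y j 0 = algebraMap k[X] A X - algebraMap k A (algebraMap k₀ k (a j)))
    (hyr : ∀ j i, y j i ∈
      (Ideal.span {algebraMap k[X] A X - algebraMap k A (algebraMap k₀ k (a j))}).radical)
    {ε : ℝ} (hε : 0 < ε) :
    ∃ C : ℝ, 0 ≤ C ∧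
      ∀ (L : Type) [Field L] [NumberField L] [Algebra k₀ L] [Algebra k L] [IsScalarTower k₀ k L]
        (φ : A →ₐ[k] L) (x : k₀), φ (algebraMap k[X] A X) = algebraMap k₀ L x →
        (∀ j, x ≠ a j) → ∀ S : Finset ℕ, (∀ p ∈ S, p.Prime) →
          (Module.finrank k₀ L : ℝ) * (Real.log |(discr k₀ : ℝ)| + cntK ∅ a x) +
            prx S y (φ : A →+* L) ≤
          Real.log |(discr L : ℝ)| + (Module.finrank k₀ L : ℝ) *
            (((∑ j, (Module.finrank k (A ⧸ Ideal.span (Set.range (y j))) : ℝ)) /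
              Module.finrank k[X] A + ε) * logHeight₁ x) +
            (Module.finrank ℚ L : ℝ) * (∑ p ∈ S, Real.log p + C) := by
  classical
  obtain ⟨C, G, hC, hG, h⟩ := trans_gen k₀ k A hq a s y hy0 hyr hε
  have hR : {z : k₀ | aeval z G = 0}.Finite := by
    refine (Polynomial.rootSet_finite G k₀).subset fun z hz => ?_
    exact (Polynomial.mem_rootSet_of_ne hG).mpr hz
  obtain ⟨c, hc⟩ : ∃ c : k₀ → ℝ, c = fun x => |Real.log |(discr k₀ : ℝ)| + cntK ∅ a x +
    ∑ j, logHeight₁ (x - a j)| := ⟨_, rfl⟩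
  have hc0 : ∀ x, 0 ≤ c x := fun x => by rw [hc]; exact abs_nonneg _
  obtain ⟨C', hC'⟩ : ∃ C' : ℝ, C' = C + ∑ x ∈ hR.toFinset, c x := ⟨_, rfl⟩
  have hCC : C ≤ C' := by
    rw [hC']
    have := Finset.sum_nonneg fun x (_ : x ∈ hR.toFinset) => hc0 x
    linarith
  refine ⟨C', hC.trans hCC, ?_⟩
  intro L _ _ _ _ _ φ x hφ hx S hS
  have hL0 : (0 : ℝ) ≤ (Module.finrank ℚ L : ℝ) := Nat.cast_nonneg _
  by_cases hGx : aeval x G ≠ 0
  · refine (h L φ x hφ hx hGx S hS).trans ?_
    have h1 := mul_le_mul_of_nonneg_left (add_le_add_right hCC (∑ p ∈ S, Real.log p)) hL0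
    linarith
  · rw [not_not] at hGx
    have hxR : x ∈ hR.toFinset := (Set.Finite.mem_toFinset hR).2 hGx
    have hfd : FiniteDimensional k₀ L := Module.Finite.of_restrictScalars_finite ℚ k₀ L
    obtain ⟨m, hm⟩ : ∃ m : ℝ, m = (Module.finrank k₀ L : ℝ) := ⟨_, rfl⟩
    have hm0 : 0 < m := by rw [hm]; exact_mod_cast Module.finrank_pos
    have hmL : m ≤ (Module.finrank ℚ L : ℝ) := by
      have h3 : (Module.finrank ℚ L : ℝ) = (Module.finrank ℚ k₀ : ℝ) * m := by
        rw [hm]
        exact_mod_cast (Module.finrank_mul_finrank ℚ k₀ L).symm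
      have h4 : (1 : ℝ) ≤ (Module.finrank ℚ k₀ : ℝ) := by
        exact_mod_cast Nat.succ_le_of_lt (Module.finrank_pos (R := ℚ) (M := k₀))
      rw [h3]
      nlinarith
    have hy : ∀ j, φ (y j 0) = algebraMap k₀ L (x - a j) := by
      intro j
      rw [hy0, map_sub, hφ, map_sub, AlgHom.commutes, ← IsScalarTower.algebraMap_apply]
    have h1 : prx S y (φ : A →+* L) ≤ m * ∑ j, logHeight₁ (x - a j) := by
      unfold prx
      rw [Finset.mul_sum]
      refine Finset.sum_le_sum fun j _ => ?_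
      have h2 := (prox_le S (y j) (φ : A →+* L) (by
        show φ (y j 0) ≠ 0
        rw [hy]
        intro h3
        exact hx j (sub_eq_zero.1 ((map_eq_zero _).1 h3)))).2
      refine h2.trans (le_of_eq ?_)
      show logHeight₁ (φ (y j 0)) = _
      rw [hy, hm, logHeight₁_eq_log_mulHeight₁, logHeight₁_eq_log_mulHeight₁]
      exact Pool.Agent.W223.AC.MK.log_height_ext L (x - a j)
    have h2 : c x ≤ C' := by
      rw [hC']
      have h3 := Finset.single_le_sum (fun z (_ : z ∈ hR.toFinset) => hc0 z) hxR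
      linarith
    have h3 : Real.log |(discr k₀ : ℝ)| + cntK ∅ a x + ∑ j, logHeight₁ (x - a j) ≤ c x := by
      rw [hc]
      exact le_abs_self _
    have h4 : 0 ≤ Real.log |(discr L : ℝ)| := by
      refine Real.log_nonneg ?_
      have h5 : (1 : ℤ) ≤ |discr L| := Int.one_le_abs (discr_ne_zero L)
      have h6 : |(discr L : ℝ)| = ((|discr L| : ℤ) : ℝ) := by push_cast; rfl
      rw [h6]
      exact_mod_cast h5
    have h5 : 0 ≤ ((∑ j, (Module.finrank k (A ⧸ Ideal.span (Set.range (y j))) : ℝ)) /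
        Module.finrank k[X] A + ε) * logHeight₁ x :=
      mul_nonneg (by positivity) (zero_le_logHeight₁ x)
    have h6 : 0 ≤ ∑ p ∈ S, Real.log (p : ℝ) :=
      Finset.sum_nonneg fun p _ => Real.log_natCast_nonneg p
    rw [← hm]
    have h7 : m * (Real.log |(discr k₀ : ℝ)| + cntK ∅ a x) + prx S y (φ : A →+* L) ≤ m * c x := by
      have h8 := mul_le_mul_of_nonneg_left h3 hm0.le
      linarith
    have h8 : m * c x ≤ (Module.finrank ℚ L : ℝ) * C' :=
      mul_le_mul hmL h2 (hc0 x) hL0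
    have h9 := mul_nonneg hm0.le h5
    have h10 := mul_nonneg hL0 h6
    linarith

end trans

end Pool.Agent.Y557.OE
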